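import Pool.Agent.V8H47.NLK.Tps

/-!
# Context-free languages as rational images of `D ∩ R` for rich languages `R`
-/

namespace Pool.Agent.V8H47.NLK

/-! ### Grammars -/

section grammar

variable {T : Type} (g : ContextFreeGrammar T)

/-- the words generated from a list of symbols -/
inductive Gnr : List (Symbol T g.NT) → List T → Prop
  | nil : Gnr [] []
  | term (a : T) {l : List (Symbol T g.NT)} {w : List T} : Gnr l w →
      Gnr (Symbol.terminal a :: l) (a :: w)
  | nt {r : ContextFreeRule T g.NT} (hr : r ∈ g.rules) {l : List (Symbol T g.NT)}
      {w v : List T} : Gnr r.output w → Gnr l v → Gnr (Symbol.nonterminal r.input :: l) (w ++ v)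

variable {g}

theorem gl_append {l l' : List (Symbol T g.NT)} {w w' : List T} (h : Gnr g l w)
    (h' : Gnr g l' w') : Gnr g (l ++ l') (w ++ w') := by
  induction h with
  | nil => exact h'
  | term a _ ih => exact .term a ih
  | nt hr h1 _ _ ih2 =>
    rw [List.cons_append, List.append_assoc]
    exact .nt hr h1 ih2

theorem gl_split : ∀ (l l' : List (Symbol T g.NT)) (w : List T), Gnr g (l ++ l') w →
    ∃ w1 w2, w = w1 ++ w2 ∧ Gnr g l w1 ∧ Gnr g l' w2 := by
  intro l
  induction l with
  | nil => intro l' w h; exact ⟨[], w, rfl, .nil, h⟩
  | cons x l ih =>
    intro l' w h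
    rw [List.cons_append] at h
    cases h with
    | term a h =>
      obtain ⟨w1, w2, rfl, h1, h2⟩ := ih _ _ h
      exact ⟨a :: w1, w2, rfl, .term a h1, h2⟩
    | nt hr h1 h =>
      obtain ⟨w1, w2, rfl, h2, h3⟩ := ih _ _ h
      exact ⟨_ ++ w1, w2, by rw [List.append_assoc], .nt hr h1 h2, h3⟩

theorem gl_terminals : ∀ w : List T, Gnr g (w.map Symbol.terminal) w := by
  intro w
  induction w with
  | nil => exact .nil
  | cons a w ih => exact .term a ih

theorem gl_of_derives {l : List (Symbol T g.NT)} {w : List T}
    (h : g.Derives l (w.map Symbol.terminal)) : Gnr g l w := by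
  induction h using Relation.ReflTransGen.head_induction_on with
  | refl => exact gl_terminals w
  | head hs _ ih =>
    obtain ⟨r, hr, hrw⟩ := hs
    obtain ⟨p, q, rfl, rfl⟩ := hrw.exists_parts
    obtain ⟨w1, w2, rfl, h1, h2⟩ := gl_split _ _ _ ih
    obtain ⟨w3, w4, rfl, h3, h4⟩ := gl_split _ _ _ h1
    have h5 : Gnr g [Symbol.nonterminal r.input] w4 := by
      have := Gnr.nt hr h4 Gnr.nil
      rwa [List.append_nil] at this
    exact gl_append (gl_append h3 h5) h2

theorem derives_of_gl {l : List (Symbol T g.NT)} {w : List T} (h : Gnr g l w) :
    g.Derives l (w.map Symbol.terminal) := by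
  induction h with
  | nil => exact .refl _
  | term a _ ih => exact ih.append_left [Symbol.terminal a]
  | @nt r hr l w v _ _ ih1 ih2 =>
    rw [List.map_append]
    have h1 : g.Produces (Symbol.nonterminal r.input :: l) (r.output ++ l) :=
      ⟨r, hr, .head l⟩
    exact (h1.trans_derives (ih1.append_right l)).trans (ih2.append_left _)

theorem mem_language_gl (w : List T) :
    w ∈ g.language ↔ Gnr g [Symbol.nonterminal g.initial] w :=
  ⟨gl_of_derives, derives_of_gl⟩

end grammar

/-! ### Codes -/

section codes

variable {S : Type} [DecidableEq S]

theorem runS_pop : ∀ (w : List (S × Bool)) (A B C : List S), runS w A = some [] →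
    A.length ≤ B.length → runS w B = some C → B = A ++ C := by
  intro w
  induction w with
  | nil =>
    intro A B C h1 _ h2
    simp only [runS, Option.some.injEq] at h1 h2
    rw [h1, h2]; rfl
  | cons a w ih =>
    intro A B C h1 hl h2
    obtain ⟨s, b⟩ := a
    cases b with
    | true =>
      simp only [runS] at h1 h2
      have := ih _ _ _ h1 (by simpa using hl) h2
      simpa using this
    | false =>
      cases A with
      | nil => simp [runS] at h1
      | cons t A =>
        cases B with
        | nil => simp at hl
        | cons t' B =>
          simp only [runS] at h1 h2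
          split_ifs at h1 h2 with e1 e2
          have := ih _ _ _ h1 (by simpa using hl) h2
          rw [this, ← e1, ← e2]; rfl

variable (x y x' y' : List (S × Bool)) (u v : List S)

/-- the word which pushes a list of bits -/
def wo : List Bool → List (S × Bool)
  | [] => []
  | b :: bs => (if b then x else y) ++ wo bs

/-- the content which represents a list of bits -/
def cn : List Bool → List S
  | [] => []
  | b :: bs => cn bs ++ (if b then u else v)

/-- the word which pops a list of bits -/
def wc : List Bool → List (S × Bool)
  | [] => []
  | b :: bs => wc bs ++ (if b then x' else y')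

variable {x y x' y' u v}

theorem runS_wo (hx : runS x [] = some u) (hy : runS y [] = some v) : ∀ (bs : List Bool)
    (st : List S), runS (wo x y bs) st = some (cn u v bs ++ st) := by
  intro bs
  induction bs with
  | nil => intro st; rfl
  | cons b bs ih =>
    intro st
    simp only [wo, cn, List.append_assoc]
    cases b
    · have := runS_frame y [] v st hy
      simp only [List.nil_append] at this
      exact runS_trans this (ih _)
    · have := runS_frame x [] u st hx
      simp only [List.nil_append] at this
      exact runS_trans this (ih _)

theorem runS_wc (hx : runS x' u = some []) (hy : runS y' v = some []) : ∀ (bs : List Bool)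
    (st : List S), runS (wc x' y' bs) (cn u v bs ++ st) = some st := by
  intro bs
  induction bs with
  | nil => intro st; rfl
  | cons b bs ih =>
    intro st
    simp only [wc, cn, List.append_assoc]
    cases b
    · exact runS_trans (ih _) (runS_frame y' v [] st hy)
    · exact runS_trans (ih _) (runS_frame x' u [] st hx)

theorem runS_wc_ne (hx : runS x' u = some []) (hy : runS y' v = some [])
    (hl : u.length = v.length) (hne : u ≠ v) : ∀ (bs bs' : List Bool) (st : List S),
      bs.length = bs'.length → bs ≠ bs' → runS (wc x' y' bs) (cn u v bs' ++ st) = none := by
  intro bs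
  induction bs with
  | nil =>
    intro bs' st h1 h2
    cases bs' with
    | nil => exact absurd rfl h2
    | cons => simp at h1
  | cons b bs ih =>
    intro bs' st h1 h2
    cases bs' with
    | nil => simp at h1
    | cons b' bs' =>
      simp only [wc, cn, List.append_assoc, runS_append]
      by_cases he : bs = bs'
      · subst he
        have hb : b ≠ b' := fun h => h2 (by rw [h])
        rw [runS_wc hx hy]
        simp only [Option.bind_some]
        cases b <;> cases b'
        · exact absurd rfl hb
        · cases hr : runS y' (u ++ st) with
          | none => simpa using hr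
          | some C =>
            have h3 := runS_pop _ _ _ _ hy (by simp [hl]) hr
            exact absurd (List.append_inj_left h3 hl) hne
        · cases hr : runS x' (v ++ st) with
          | none => simpa using hr
          | some C =>
            have h3 := runS_pop _ _ _ _ hx (by simp [hl]) hr
            exact absurd (List.append_inj_left h3 hl.symm).symm hne
        · exact absurd rfl hb
      · rw [ih bs' _ (by simpa using h1) he]
        rfl

end codes

/-! ### The transduction -/

section trans

variable {T : Type} (g : ContextFreeGrammar T)

/-- suffixes of right-hand sides -/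
def Lst : Type := {l : List (Symbol T g.NT) // l <:+ [Symbol.nonterminal g.initial] ∨
  ∃ r ∈ g.rules, l <:+ r.output}

theorem finite_lst : Finite (Lst g) := by
  have : {l : List (Symbol T g.NT) | l <:+ [Symbol.nonterminal g.initial] ∨
      ∃ r ∈ g.rules, l <:+ r.output} ⊆ {l | l ∈ [Symbol.nonterminal g.initial].tails} ∪
        ⋃ r ∈ g.rules, {l | l ∈ r.output.tails} := by
    rintro l (h | ⟨r, hr, h⟩)
    · exact Or.inl ((List.mem_tails _ _).2 h)
    · exact Or.inr (Set.mem_biUnion (show r ∈ (g.rules : Set _) from hr)
        ((List.mem_tails _ _).2 h))
  have h2 : ({l | l ∈ [Symbol.nonterminal g.initial].tails} ∪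
        ⋃ r ∈ g.rules, {l | l ∈ r.output.tails} : Set (List (Symbol T g.NT))).Finite := by
    refine Set.Finite.union (List.finite_toSet _) ?_
    exact Set.Finite.biUnion (Finset.finite_toSet _) (fun r _ => List.finite_toSet _)
  exact (h2.subset this).to_subtype

/-- instructions -/
inductive Tok
  | start
  | emit (a : T) (l : Lst g)
  | opn (r : {r // r ∈ g.rules}) (l : Lst g)
  | leaf
  | mid (l : Lst g)
  | close
  | fin

/-- states of the finite control -/
inductive KS
  | start
  | exp (l : Lst g)
  | done
  | fin
  | sink

theorem finite_tok [Finite T] : Finite (Tok g) := by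
  have := finite_lst g
  let f : Tok g → Unit ⊕ (T × Lst g) ⊕ ({r // r ∈ g.rules} × Lst g) ⊕ Unit ⊕ Lst g ⊕ Unit ⊕ Unit :=
    fun z => match z with
    | .start => .inl ()
    | .emit a l => .inr (.inl (a, l))
    | .opn r l => .inr (.inr (.inl (r, l)))
    | .leaf => .inr (.inr (.inr (.inl ())))
    | .mid l => .inr (.inr (.inr (.inr (.inl l))))
    | .close => .inr (.inr (.inr (.inr (.inr (.inl ())))))
    | .fin => .inr (.inr (.inr (.inr (.inr (.inr ())))))
  refine Finite.of_injective f ?_
  intro a b h
  cases a <;> cases b <;> simp_all [f]

theorem finite_ks : Finite (KS g) := by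
  have := finite_lst g
  let f : KS g → Unit ⊕ Lst g ⊕ Unit ⊕ Unit ⊕ Unit := fun z => match z with
    | .start => .inl ()
    | .exp l => .inr (.inl l)
    | .done => .inr (.inr (.inl ()))
    | .fin => .inr (.inr (.inr (.inl ())))
    | .sink => .inr (.inr (.inr (.inr ())))
  refine Finite.of_injective f ?_
  intro a b h
  cases a <;> cases b <;> simp_all [f]

def l0 : Lst g := ⟨[Symbol.nonterminal g.initial], Or.inl List.suffix_rfl⟩

def outL (r : {r // r ∈ g.rules}) : Lst g := ⟨r.1.output, Or.inr ⟨r.1, r.2, List.suffix_rfl⟩⟩

open Classical in
/-- the finite control -/
noncomputable def ksStep : KS g → Tok g → KS g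
  | .start, .start => .exp (l0 g)
  | .exp m, .emit a l => if m.1 = Symbol.terminal a :: l.1 then .exp l else .sink
  | .exp m, .opn r l => if m.1 = Symbol.nonterminal r.1.input :: l.1 then .exp (outL g r)
      else .sink
  | .exp m, .leaf => if m.1 = [] then .done else .sink
  | .done, .mid l => .exp l
  | .done, .close => .done
  | .done, .fin => .fin
  | _, _ => .sink

/-- the finite control as an automaton -/
noncomputable def ksDFA : DFA (Tok g) (KS g) where
  step := ksStep g
  start := .start
  accept := {.fin}

theorem eval_sink (h : List (Tok g)) : (ksDFA g).evalFrom KS.sink h = KS.sink := by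
  induction h with
  | nil => rfl
  | cons z h ih =>
    have : (ksDFA g).evalFrom KS.sink (z :: h) = (ksDFA g).evalFrom (ksStep g .sink z) h := rfl
    rw [this]
    have e : ksStep g .sink z = .sink := by cases z <;> rfl
    rw [e]; exact ih

theorem eval_cons (s : KS g) (z : Tok g) (h : List (Tok g)) :
    (ksDFA g).evalFrom s (z :: h) = (ksDFA g).evalFrom (ksStep g s z) h := rfl

/-- what the instructions write -/
def psi : Tok g → List T
  | .emit a _ => [a]
  | _ => []

variable {S : Type} [DecidableEq S] (p e x x' y y' a b c t : List (S × Bool))
  (cd : Option (Option (Lst g)) → List Bool)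

/-- the store actions of the instructions -/
def phi : Tok g → List (S × Bool)
  | .start => p ++ wo x y (cd none)
  | .emit _ _ => []
  | .opn _ l => a ++ wo x y (cd (some (some l)))
  | .leaf => t
  | .mid l => wc x' y' (cd (some (some l))) ++ b ++ wo x y (cd (some none))
  | .close => wc x' y' (cd (some none)) ++ c
  | .fin => wc x' y' (cd none) ++ e

variable {g p e x x' y y' a b c t cd}

theorem lam_wrap : ∀ (bs : List Bool) (w : List (S × Bool)), Lam x x' y y' a b c t w →
    Lam x x' y y' a b c t (wo x y bs ++ w ++ wc x' y' bs) := by
  intro bs
  induction bs with
  | nil => intro w h; simpa [wo, wc] using h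
  | cons d bs ih =>
    intro w h
    have h1 := ih w h
    cases d
    · have := h1.right
      simpa [wo, wc, List.append_assoc] using this
    · have := h1.left
      simpa [wo, wc, List.append_assoc] using this

/-- derivations are encoded -/
theorem encode {l : List (Symbol T g.NT)} {w : List T} (h : Gnr g l w) :
    ∀ hl, ∃ tk : List (Tok g), (ksDFA g).evalFrom (.exp ⟨l, hl⟩) tk = .done ∧
      tk.flatMap (psi g) = w ∧
      Lam x x' y y' a b c t (tk.flatMap (phi g p e x x' y y' a b c t cd)) := by
  induction h with
  | nil =>
    intro hl
    refine ⟨[.leaf], ?_, rfl, ?_⟩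
    · change ksStep g (.exp ⟨[], hl⟩) .leaf = .done
      simp [ksStep]
    · simpa [phi] using Lam.base
  | @term d l w _ ih =>
    intro hl
    have hl' : l <:+ [Symbol.nonterminal g.initial] ∨ ∃ r ∈ g.rules, l <:+ r.output := by
      rcases hl with h | ⟨r, hr, h⟩
      · exact Or.inl ((List.suffix_cons _ _).trans h)
      · exact Or.inr ⟨r, hr, (List.suffix_cons _ _).trans h⟩
    obtain ⟨tk, h1, h2, h3⟩ := ih hl'
    refine ⟨.emit d ⟨l, hl'⟩ :: tk, ?_, ?_, ?_⟩
    · rw [eval_cons]; simpa [ksStep] using h1
    · simp [psi, h2]
    · simpa [phi] using h3
  | @nt r hr l w v _ _ ih1 ih2 =>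
    intro hl
    have hl' : l <:+ [Symbol.nonterminal g.initial] ∨ ∃ r ∈ g.rules, l <:+ r.output := by
      rcases hl with h | ⟨r, hr, h⟩
      · exact Or.inl ((List.suffix_cons _ _).trans h)
      · exact Or.inr ⟨r, hr, (List.suffix_cons _ _).trans h⟩
    obtain ⟨tk1, g1, g2, g3⟩ := ih1 (outL g ⟨r, hr⟩).2
    obtain ⟨tk2, h1, h2, h3⟩ := ih2 hl'
    refine ⟨.opn ⟨r, hr⟩ ⟨l, hl'⟩ :: (tk1 ++ (.mid ⟨l, hl'⟩ :: (tk2 ++ [.close]))), ?_, ?_, ?_⟩
    · rw [eval_cons]
      simp only [ksStep, if_true]
      rw [DFA.evalFrom_of_append]
      have e1 : (ksDFA g).evalFrom (.exp (outL g ⟨r, hr⟩)) tk1 = .done := g1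
      rw [e1, eval_cons]
      simp only [ksStep]
      rw [DFA.evalFrom_of_append, h1]
      rfl
    · simp only [List.flatMap_cons, List.flatMap_append, List.flatMap_nil, psi, g2, h2,
        List.nil_append, List.append_nil]
    · have e1 := lam_wrap (cd (some (some ⟨l, hl'⟩))) _ g3
      have e2 := lam_wrap (cd (some none)) _ h3
      have e3 := e1.both e2
      simpa [phi, List.append_assoc] using e3

/-- the data of a rich language -/
structure Data (p e x x' y y' a b c t : List (S × Bool)) (π u v c₁ c₂ : List S) : Prop where
  p : runS p [] = some π
  e : runS e π = some []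
  x : runS x [] = some u
  x' : runS x' u = some []
  y : runS y [] = some v
  y' : runS y' v = some []
  a : runS a [] = some c₁
  b : runS b c₁ = some c₂
  c : runS c c₂ = some []
  t : runS t [] = some []
  len : u.length = v.length
  ne : u ≠ v

section decode

variable {π u v c₁ c₂ : List S}

variable (cd π u v c₁ c₂) in
/-- the content of the store -/
def conc : List (Option (Lst g)) → List S
  | [] => cn u v (cd none) ++ π
  | some l :: st => cn u v (cd (some (some l))) ++ (c₁ ++ conc st)
  | none :: st => cn u v (cd (some none)) ++ (c₂ ++ conc st)

variable (cd π u v c₁ c₂) in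
/-- the content of the store below the first code -/
def rest : List (Option (Lst g)) → List S
  | [] => π
  | some _ :: st => c₁ ++ conc cd π u v c₁ c₂ st
  | none :: st => c₂ ++ conc cd π u v c₁ c₂ st

theorem conc_eq (st : List (Option (Lst g))) : conc cd π u v c₁ c₂ st =
    cn u v (cd st.head?) ++ rest cd π u v c₁ c₂ st := by
  cases st with
  | nil => rfl
  | cons a st => cases a <;> rfl

theorem pop_code (D : Data p e x x' y y' a b c t π u v c₁ c₂) (hinj : Function.Injective cd)
    (hlen : ∀ X Y, (cd X).length = (cd Y).length) (X : Option (Option (Lst g)))
    (st : List (Option (Lst g))) (r : List (S × Bool)) (res : List S)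
    (h : runS (wc x' y' (cd X) ++ r) (conc cd π u v c₁ c₂ st) = some res) :
    X = st.head? ∧ runS r (rest cd π u v c₁ c₂ st) = some res := by
  rw [runS_append, conc_eq] at h
  by_cases hX : X = st.head?
  · rw [hX, runS_wc D.x' D.y'] at h
    exact ⟨hX, h⟩
  · rw [runS_wc_ne D.x' D.y' D.len D.ne _ _ _ (hlen _ _) (fun he => hX (hinj he))] at h
    simp at h

theorem frame {w : List (S × Bool)} {A B : List S} (h : runS w A = some B) (st : List S) :
    runS w (A ++ st) = some (B ++ st) := runS_frame w A B st h

/-- derivations can be read off -/
theorem decode (D : Data p e x x' y y' a b c t π u v c₁ c₂) (hinj : Function.Injective cd)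
    (hlen : ∀ X Y, (cd X).length = (cd Y).length) : ∀ (n : ℕ) (h : List (Tok g)),
      h.length ≤ n → ∀ (m : Lst g) (st : List (Option (Lst g))),
      (ksDFA g).evalFrom (.exp m) h = .fin →
      runS (h.flatMap (phi g p e x x' y y' a b c t cd)) (conc cd π u v c₁ c₂ st) = some [] →
      ∃ h1 h2, h = h1 ++ h2 ∧ h2.length < h.length ∧ Gnr g m.1 (h1.flatMap (psi g)) ∧
        (ksDFA g).evalFrom .done h2 = .fin ∧
        runS (h2.flatMap (phi g p e x x' y y' a b c t cd)) (conc cd π u v c₁ c₂ st)
          = some [] := by
  intro n
  induction n with
  | zero =>
    intro h hn m st h1 _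
    have : h = [] := List.length_eq_zero_iff.1 (by omega)
    subst this
    exact absurd h1 (by simp [DFA.evalFrom])
  | succ n ih =>
    intro h hn m st h1 h2
    cases h with
    | nil => exact absurd h1 (by simp [DFA.evalFrom])
    | cons z h =>
      simp only [List.length_cons] at hn
      rw [eval_cons] at h1
      rw [List.flatMap_cons] at h2
      cases z with
      | start => simp only [ksStep, eval_sink] at h1; exact absurd h1 (by simp)
      | mid l => simp only [ksStep, eval_sink] at h1; exact absurd h1 (by simp)
      | close => simp only [ksStep, eval_sink] at h1; exact absurd h1 (by simp)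
      | fin => simp only [ksStep, eval_sink] at h1; exact absurd h1 (by simp)
      | emit d l =>
        simp only [ksStep] at h1
        split_ifs at h1 with hm
        · simp only [phi, List.nil_append] at h2
          obtain ⟨k1, k2, e1, e2, e3, e4, e5⟩ := ih h (by omega) l st h1 h2
          refine ⟨.emit d l :: k1, k2, by rw [e1]; rfl, by simp only [List.length_cons]; omega,
            ?_, e4, e5⟩
          rw [hm]
          simpa [psi] using Gnr.term d e3
        · rw [eval_sink] at h1; exact absurd h1 (by simp)
      | leaf =>
        simp only [ksStep] at h1
        split_ifs at h1 with hm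
        · refine ⟨[.leaf], h, rfl, by simp, ?_, h1, ?_⟩
          · rw [hm]
            simpa [psi] using Gnr.nil
          · simp only [phi, runS_append] at h2
            have := frame D.t (conc cd π u v c₁ c₂ st)
            simp only [List.nil_append] at this
            rw [this] at h2
            exact h2
        · rw [eval_sink] at h1; exact absurd h1 (by simp)
      | opn r l =>
        simp only [ksStep] at h1
        split_ifs at h1 with hm
        · -- the first child
          simp only [phi, List.append_assoc] at h2
          rw [runS_append] at h2
          have e0 := frame D.a (conc cd π u v c₁ c₂ st)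
          simp only [List.nil_append] at e0
          rw [e0, Option.bind_some, runS_append, runS_wo D.x D.y, Option.bind_some] at h2
          have h3 : runS (h.flatMap (phi g p e x x' y y' a b c t cd))
              (conc cd π u v c₁ c₂ (some l :: st)) = some [] := h2
          obtain ⟨k1, k2, e1, e2, e3, e4, e5⟩ := ih h (by omega) (outL g r) (some l :: st) h1 h3
          have hk1 : k1.length + k2.length = h.length := by rw [e1, List.length_append]
          cases k2 with
          | nil => exact absurd e4 (by simp [DFA.evalFrom])
          | cons z k2 =>
            simp only [List.length_cons] at e2 hk1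
            rw [eval_cons] at e4
            rw [List.flatMap_cons] at e5
            cases z with
            | start => simp only [ksStep, eval_sink] at e4; exact absurd e4 (by simp)
            | emit => simp only [ksStep, eval_sink] at e4; exact absurd e4 (by simp)
            | opn => simp only [ksStep, eval_sink] at e4; exact absurd e4 (by simp)
            | leaf => simp only [ksStep, eval_sink] at e4; exact absurd e4 (by simp)
            | close =>
              simp only [phi, List.append_assoc] at e5
              have := (pop_code D hinj hlen _ _ _ _ e5).1
              simp at this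
            | fin =>
              simp only [phi, List.append_assoc] at e5
              have := (pop_code D hinj hlen _ _ _ _ e5).1
              simp at this
            | mid l' =>
              simp only [phi, List.append_assoc] at e5
              obtain ⟨f1, f2⟩ := pop_code D hinj hlen _ _ _ _ e5
              simp only [List.head?_cons, Option.some.injEq] at f1
              subst f1
              simp only [rest] at f2
              rw [runS_append, frame D.b, Option.bind_some, runS_append, runS_wo D.x D.y,
                Option.bind_some] at f2
              have f3 : runS (k2.flatMap (phi g p e x x' y y' a b c t cd))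
                  (conc cd π u v c₁ c₂ (none :: st)) = some [] := f2
              simp only [ksStep] at e4
              obtain ⟨m1, m2, g1, g2, g3, g4, g5⟩ := ih k2 (by omega) l' (none :: st) e4 f3
              have hm1 : m1.length + m2.length = k2.length := by rw [g1, List.length_append]
              cases m2 with
              | nil => exact absurd g4 (by simp [DFA.evalFrom])
              | cons z m2 =>
                simp only [List.length_cons] at g2 hm1
                rw [eval_cons] at g4
                rw [List.flatMap_cons] at g5
                cases z with
                | start => simp only [ksStep, eval_sink] at g4; exact absurd g4 (by simp)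
                | emit => simp only [ksStep, eval_sink] at g4; exact absurd g4 (by simp)
                | opn => simp only [ksStep, eval_sink] at g4; exact absurd g4 (by simp)
                | leaf => simp only [ksStep, eval_sink] at g4; exact absurd g4 (by simp)
                | mid =>
                  simp only [phi, List.append_assoc] at g5
                  have := (pop_code D hinj hlen _ _ _ _ g5).1
                  simp at this
                | fin =>
                  simp only [phi, List.append_assoc] at g5
                  have := (pop_code D hinj hlen _ _ _ _ g5).1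
                  simp at this
                | close =>
                  simp only [phi, List.append_assoc] at g5
                  obtain ⟨_, f4⟩ := pop_code D hinj hlen _ _ _ _ g5
                  simp only [rest] at f4
                  have e6 := frame D.c (conc cd π u v c₁ c₂ st)
                  simp only [List.nil_append] at e6
                  rw [runS_append, e6, Option.bind_some] at f4
                  simp only [ksStep] at g4
                  refine ⟨.opn r l' :: (k1 ++ .mid l' :: (m1 ++ [.close])), m2, ?_, ?_, ?_, g4,
                    f4⟩
                  · rw [e1, g1]; simp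
                  · simp only [List.length_cons]; omega
                  · rw [hm]
                    have := Gnr.nt r.2 e3 g3
                    simpa [psi] using this
        · rw [eval_sink] at h1; exact absurd h1 (by simp)

end decode

theorem lam_run {π u v c₁ c₂ : List S} (D : Data p e x x' y y' a b c t π u v c₁ c₂)
    {w : List (S × Bool)} (h : Lam x x' y y' a b c t w) : runS w [] = some [] := by
  induction h with
  | base => exact D.t
  | left _ ih =>
    refine runS_trans (runS_trans D.x ?_) D.x'
    have := frame ih u
    simpa using this
  | right _ ih =>
    refine runS_trans (runS_trans D.y ?_) D.y'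
    have := frame ih v
    simpa using this
  | both _ _ ih1 ih2 =>
    refine runS_trans (runS_trans (runS_trans (runS_trans D.a ?_) D.b) ?_) D.c
    · have := frame ih1 c₁
      simpa using this
    · have := frame ih2 c₂
      simpa using this

end trans

/-- **Context-free languages are rational images of `D ∩ R` if `R` is rich.** -/
theorem cf_side {S : Type} [DecidableEq S] {R : Language (S × Bool)} (hR : Rich R) {T : Type}
    [Finite T] {L : Language T} (hL : L.IsContextFree) : RatImage (dyck S ⊓ R) L := by
  obtain ⟨g, rfl⟩ := hL
  obtain ⟨p, e, x, x', y, y', a, b, c, t, π, u, v, c₁, c₂, h1, h2, h3, h4, h5, h6, h7, h8, h9,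
    h10, h11, h12, hRR⟩ := hR
  have D : Data p e x x' y y' a b c t π u v c₁ c₂ :=
    ⟨h1, h2, h3, h4, h5, h6, h7, h8, h9, h10, h11, h12⟩
  have := finite_lst g
  have := finite_tok g
  have := finite_ks g
  -- a code
  obtain ⟨N, ⟨ee⟩⟩ := Finite.exists_equiv_fin (Option (Option (Lst g)))
  let cd : Option (Option (Lst g)) → List Bool := fun X => List.ofFn (fun j => decide (j = ee X))
  have hlen : ∀ X Y, (cd X).length = (cd Y).length := fun X Y => by simp [cd]
  have hinj : Function.Injective cd := by
    intro X Y hXY
    have e1 := List.ofFn_injective hXY
    have e2 := congrFun e1 (ee X)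
    simp only [decide_true] at e2
    have e3 : ee X = ee Y := of_decide_eq_true e2.symm
    exact ee.injective e3
  refine ⟨Tok g, inferInstance, (ksDFA g).accepts, phi g p e x x' y y' a b c t cd, psi g,
    ⟨KS g, Fintype.ofFinite _, ksDFA g, rfl⟩, ?_⟩
  ext w
  rw [mem_language_gl]
  constructor
  · intro hw
    obtain ⟨tk, k1, k2, k3⟩ := encode (p := p) (e := e) (x := x) (x' := x') (y := y) (y' := y')
      (a := a) (b := b) (c := c) (t := t) (cd := cd) hw (l0 g).2
    have e1 := lam_wrap (cd none) _ k3
    refine ⟨.start :: (tk ++ [.fin]), ?_, ⟨?_, ?_⟩, ?_⟩
    · change (ksDFA g).evalFrom .start (.start :: (tk ++ [.fin])) = .fin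
      rw [eval_cons, DFA.evalFrom_of_append]
      simp only [ksStep]
      have : (ksDFA g).evalFrom (KS.exp (l0 g)) tk = .done := k1
      rw [this]
      rfl
    · change runS _ [] = some []
      have e2 : (Tok.start :: (tk ++ [Tok.fin])).flatMap (phi g p e x x' y y' a b c t cd) =
          p ++ (wo x y (cd none) ++ tk.flatMap (phi g p e x x' y y' a b c t cd) ++
            wc x' y' (cd none)) ++ e := by
        simp [phi, List.append_assoc]
      rw [e2]
      refine runS_trans (runS_trans D.p ?_) D.e
      have := frame (lam_run D e1) π
      simpa using this
    · have e2 : (Tok.start :: (tk ++ [Tok.fin])).flatMap (phi g p e x x' y y' a b c t cd) =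
          p ++ (wo x y (cd none) ++ tk.flatMap (phi g p e x x' y y' a b c t cd) ++
            wc x' y' (cd none)) ++ e := by
        simp [phi, List.append_assoc]
      rw [e2]
      exact hRR _ e1
    · simp [psi, k2]
  · rintro ⟨h, hh, ⟨hd, _⟩, rfl⟩
    replace hh : (ksDFA g).evalFrom .start h = .fin := hh
    replace hd : runS (h.flatMap (phi g p e x x' y y' a b c t cd)) [] = some [] := hd
    cases h with
    | nil => exact absurd hh (by simp [DFA.evalFrom])
    | cons z h =>
      rw [eval_cons] at hh
      rw [List.flatMap_cons] at hd
      cases z with
      | emit => simp only [ksStep, eval_sink] at hh; exact absurd hh (by simp)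
      | opn => simp only [ksStep, eval_sink] at hh; exact absurd hh (by simp)
      | leaf => simp only [ksStep, eval_sink] at hh; exact absurd hh (by simp)
      | mid => simp only [ksStep, eval_sink] at hh; exact absurd hh (by simp)
      | close => simp only [ksStep, eval_sink] at hh; exact absurd hh (by simp)
      | fin => simp only [ksStep, eval_sink] at hh; exact absurd hh (by simp)
      | start =>
        simp only [ksStep] at hh
        simp only [phi, List.append_assoc] at hd
        rw [runS_append, D.p, Option.bind_some, runS_append, runS_wo D.x D.y,
          Option.bind_some] at hd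
        obtain ⟨k1, k2, e1, _, e3, e4, e5⟩ := decode D hinj hlen h.length h le_rfl (l0 g) []
          hh hd
        cases k2 with
        | nil => exact absurd e4 (by simp [DFA.evalFrom])
        | cons z k2 =>
          rw [eval_cons] at e4
          rw [List.flatMap_cons] at e5
          cases z with
          | start => simp only [ksStep, eval_sink] at e4; exact absurd e4 (by simp)
          | emit => simp only [ksStep, eval_sink] at e4; exact absurd e4 (by simp)
          | opn => simp only [ksStep, eval_sink] at e4; exact absurd e4 (by simp)
          | leaf => simp only [ksStep, eval_sink] at e4; exact absurd e4 (by simp)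
          | mid =>
            simp only [phi, List.append_assoc] at e5
            have := (pop_code D hinj hlen _ _ _ _ e5).1
            simp at this
          | close =>
            simp only [phi, List.append_assoc] at e5
            have := (pop_code D hinj hlen _ _ _ _ e5).1
            simp at this
          | fin =>
            simp only [ksStep] at e4
            cases k2 with
            | cons z k2 =>
              rw [eval_cons] at e4
              have : ksStep g .fin z = .sink := by cases z <;> rfl
              rw [this, eval_sink] at e4
              exact absurd e4 (by simp)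
            | nil =>
              rw [e1]
              simpa [psi, l0] using e3

end Pool.Agent.V8H47.NLK
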