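import Mathlib

/-!
# Semi-Dyck languages and rational transductions
-/

namespace Pool.Agent.V8H47.NLK

/-- The effect of a sequence of pushes `(s, true)` and pops `(s, false)` on a store (top symbol
first); `none` if some pop does not match the top symbol of the store. -/
def runS {S : Type} [DecidableEq S] : List (S × Bool) → List S → Option (List S)
  | [], st => some st
  | (s, true) :: l, st => runS l (s :: st)
  | (_, false) :: _, [] => none
  | (s, false) :: l, t :: st => if s = t then runS l st else none

/-- The semi-Dyck language over the pairs of brackets `(s, true)`, `(s, false)`, `s : S`. -/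
def dyck (S : Type) [DecidableEq S] : Language (S × Bool) := {w | runS w [] = some []}

/-- `L'` is the image of `L` under a rational transduction: there are a finite alphabet `Z`, a
regular language `K` over `Z` and homomorphisms `φ`, `ψ` with
`L' = {ψ(h) | h ∈ K, φ(h) ∈ L}`. -/
def RatImage {X Y : Type} (L : Language X) (L' : Language Y) : Prop :=
  ∃ (Z : Type) (_ : Finite Z) (K : Language Z) (φ : Z → List X) (ψ : Z → List Y),
    K.IsRegular ∧ L' = {v | ∃ h ∈ K, h.flatMap φ ∈ L ∧ h.flatMap ψ = v}

/-- The language generated from `N` by `N → t | x N x' | y N y' | a N b N c`. -/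
inductive Lam {X : Type} (x x' y y' a b c t : List X) : List X → Prop
  | base : Lam x x' y y' a b c t t
  | left {w : List X} : Lam x x' y y' a b c t w → Lam x x' y y' a b c t (x ++ w ++ x')
  | right {w : List X} : Lam x x' y y' a b c t w → Lam x x' y y' a b c t (y ++ w ++ y')
  | both {w v : List X} : Lam x x' y y' a b c t w → Lam x x' y y' a b c t v →
      Lam x x' y y' a b c t (a ++ w ++ b ++ v ++ c)

/-- `R` contains `p N e`, where `N → t | x N x' | y N y' | a N b N c`, for words such that `p`,
`x`, `y`, `a` push contents `π`, `u`, `v`, `c₁` on the store, `e`, `x'`, `y'` pop `π`, `u`, `v`,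
`b` replaces `c₁` by `c₂`, `c` pops `c₂`, `t` is balanced, and `u ≠ v` have the same
length. -/
def Rich {S : Type} [DecidableEq S] (R : Language (S × Bool)) : Prop :=
  ∃ (p e x x' y y' a b c t : List (S × Bool)) (π u v c₁ c₂ : List S),
    runS p [] = some π ∧ runS e π = some [] ∧
    runS x [] = some u ∧ runS x' u = some [] ∧
    runS y [] = some v ∧ runS y' v = some [] ∧
    runS a [] = some c₁ ∧ runS b c₁ = some c₂ ∧ runS c c₂ = some [] ∧
    runS t [] = some [] ∧
    u.length = v.length ∧ u ≠ v ∧
    ∀ w, Lam x x' y y' a b c t w → p ++ w ++ e ∈ R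

end Pool.Agent.V8H47.NLK
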