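import Pool.Agent.V8H47.NLK.Tps

/-!
# Types of balanced runs
-/

namespace Pool.Agent.V8H47.NLK

open Relation Pool.Agent.V8H47.MH

variable {S Q : Type} [DecidableEq S] (δ : Q → S × Bool → Q)

/-- the state reached from `q` by reading `l` -/
def ev (q : Q) (l : List (S × Bool)) : Q := l.foldl δ q

/-- some balanced word leads from `τ.1` to `τ.2` -/
def Pr (τ : Q × Q) : Prop := ∃ W, bal W ∧ ev δ τ.1 W = τ.2

/-- one step down in the tree of types -/
def Ed (τ : Q × Q) (u : List S) (τ' : Q × Q) : Prop :=
  ∃ s r', Pr δ (δ τ.1 (s, true), r') ∧ Pr δ (δ r' (s, false), τ.2) ∧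
    ((τ' = (δ τ.1 (s, true), r') ∧ u = [s]) ∨ (τ' = (δ r' (s, false), τ.2) ∧ u = []))

/-- paths in the tree of types, with the content of the store -/
inductive Pth : Q × Q → List S → Q × Q → Prop
  | refl (τ : Q × Q) : Pth τ [] τ
  | tail {τ τ' τ'' : Q × Q} {u v : List S} : Pth τ u τ' → Ed δ τ' v τ'' → Pth τ (u ++ v) τ''

variable {δ}

theorem Pth.trans {τ τ' τ'' : Q × Q} {u v : List S} (h1 : Pth δ τ u τ') (h2 : Pth δ τ' v τ'') :
    Pth δ τ (u ++ v) τ'' := by
  induction h2 with
  | refl => rw [List.append_nil]; exact h1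
  | tail _ h ih => rw [← List.append_assoc]; exact ih.tail h

theorem ev_append (q : Q) (l l' : List (S × Bool)) :
    ev δ q (l ++ l') = ev δ (ev δ q l) l' := List.foldl_append

theorem Ed.words {τ τ' : Q × Q} {u : List S} (h : Ed δ τ u τ') :
    ∃ x x', runS x [] = some u.reverse ∧ runS x' u.reverse = some [] ∧
      ev δ τ.1 x = τ'.1 ∧ ev δ τ'.2 x' = τ.2 := by
  obtain ⟨s, r', ⟨W1, b1, e1⟩, ⟨W2, b2, e2⟩, h⟩ := h
  rcases h with ⟨rfl, rfl⟩ | ⟨rfl, rfl⟩
  · refine ⟨[(s, true)], (s, false) :: W2, by simp [runS], ?_, rfl, e2⟩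
    simp only [List.reverse_cons, List.reverse_nil, List.nil_append, runS, if_true]
    exact b2
  · refine ⟨(s, true) :: W1 ++ [(s, false)], [], ?_, by simp [runS], ?_, rfl⟩
    · have : runS W1 [s] = some [s] := by
        have := runS_frame W1 [] [] [s] b1
        simpa using this
      simp only [List.cons_append, runS, runS_append, this, List.reverse_nil, Option.bind_some,
        if_true]
    · change ev δ (δ τ.1 (s, true)) (W1 ++ [(s, false)]) = _
      rw [ev_append]
      simp only at e1
      rw [e1]
      rfl

theorem Pth.words {τ τ' : Q × Q} {u : List S} (h : Pth δ τ u τ') :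
    ∃ x x', runS x [] = some u.reverse ∧ runS x' u.reverse = some [] ∧
      ev δ τ.1 x = τ'.1 ∧ ev δ τ'.2 x' = τ.2 := by
  induction h with
  | refl => exact ⟨[], [], rfl, rfl, rfl, rfl⟩
  | tail _ h ih =>
    obtain ⟨x, x', h1, h2, h3, h4⟩ := ih
    obtain ⟨y, y', g1, g2, g3, g4⟩ := h.words
    refine ⟨x ++ y, y' ++ x', ?_, ?_, ?_, ?_⟩
    · rw [List.reverse_append]
      refine runS_trans h1 ?_
      exact runS_frame y _ _ _ g1
    · rw [List.reverse_append]
      refine runS_trans ?_ h2
      exact runS_frame y' _ _ _ g2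
    · rw [ev_append, h3, g3]
    · rw [ev_append, g4, h4]

theorem Ed.pr {τ τ' : Q × Q} {u : List S} (h : Ed δ τ u τ') : Pr δ τ' := by
  obtain ⟨s, r', h1, h2, ⟨rfl, _⟩ | ⟨rfl, _⟩⟩ := h
  · exact h1
  · exact h2

variable (δ)

/-- the types below `τ` -/
def below (τ : Q × Q) : Set (Q × Q) := {τ' | ∃ u, Pth δ τ u τ'}

/-- the rank of a type -/
noncomputable def rk (τ : Q × Q) : ℕ := (below δ τ).ncard

/-- equivalent types -/
def Mut (τ τ' : Q × Q) : Prop := τ' ∈ below δ τ ∧ τ ∈ below δ τ'

/-- two disjoint subtrees of the same type occur -/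
def Brn (τ : Q × Q) : Prop :=
  ∃ τ', Mut δ τ τ' ∧ ∃ s r', Pr δ (δ τ'.1 (s, true), r') ∧ Pr δ (δ r' (s, false), τ'.2) ∧
    Mut δ τ (δ τ'.1 (s, true), r') ∧ Mut δ τ (δ r' (s, false), τ'.2)

variable {δ}

theorem mem_below_self (τ : Q × Q) : τ ∈ below δ τ := ⟨[], .refl τ⟩

theorem below_trans {τ τ' τ'' : Q × Q} (h1 : τ' ∈ below δ τ) (h2 : τ'' ∈ below δ τ') :
    τ'' ∈ below δ τ := by
  obtain ⟨u, h1⟩ := h1
  obtain ⟨v, h2⟩ := h2
  exact ⟨_, h1.trans h2⟩

theorem mut_refl (τ : Q × Q) : Mut δ τ τ := ⟨mem_below_self τ, mem_below_self τ⟩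

theorem rk_lt [Finite Q] {τ τ' : Q × Q} (h1 : τ' ∈ below δ τ) (h2 : τ ∉ below δ τ') :
    rk δ τ' < rk δ τ := by
  refine Set.ncard_lt_ncard ?_ (Set.toFinite _)
  refine ⟨fun x hx => below_trans h1 hx, fun hc => h2 (hc (mem_below_self τ))⟩

theorem rk_pos [Finite Q] (τ : Q × Q) : 0 < rk δ τ := by
  refine (Set.ncard_pos (Set.toFinite _)).2 ⟨τ, mem_below_self τ⟩

/-- The pushdown system follows the automaton `δ`. -/
structure Follows {V : Type} (P : TPS V S) (π : V → Q) (δ : Q → S × Bool → Q) : Prop where
  N : ∀ x y, P.N x y → π y = π x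
  U : ∀ s x y, P.U s x y → π y = δ (π x) (s, true)
  O : ∀ s x y, P.O s x y → π y = δ (π x) (s, false)

variable {V : Type} {P : TPS V S} {π : V → Q}

theorem bal_nil : bal ([] : List (S × Bool)) := rfl

theorem bal_append {l l' : List (S × Bool)} (h : bal l) (h' : bal l') : bal (l ++ l') :=
  runS_trans h h'

theorem bal_wrap {s : S} {l : List (S × Bool)} (h : bal l) :
    bal ((s, true) :: l ++ [(s, false)]) := by
  have : runS l [s] = some [s] := by
    have := runS_frame l [] [] [s] h
    simpa using this
  simp only [bal, List.cons_append, runS, runS_append, this, Option.bind_some, if_true]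

theorem bal_pr (hF : Follows P π δ) : ∀ (h : ℕ) (x y : V), P.Bal h x y → Pr δ (π x, π y) := by
  intro h
  induction h with
  | zero =>
    intro x y hb
    induction hb with
    | refl => exact ⟨[], bal_nil, rfl⟩
    | tail _ hs ih => rw [hF.N _ _ hs]; exact ih
  | succ h ih =>
    intro x y hb
    induction hb with
    | refl => exact ⟨[], bal_nil, rfl⟩
    | @tail a b _ hs ih2 =>
      obtain ⟨W, b1, e1⟩ := ih2
      rcases hs with hs | ⟨s, u, v, h1, h2, h3⟩
      · rw [hF.N _ _ hs]; exact ⟨W, b1, e1⟩
      · obtain ⟨W2, b2, e2⟩ := ih _ _ h2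
        refine ⟨W ++ ((s, true) :: W2 ++ [(s, false)]), bal_append b1 (bal_wrap b2), ?_⟩
        simp only at e1 e2 ⊢
        rw [ev_append, e1, hF.O _ _ _ h3, ← e2, hF.U _ _ _ h1, List.cons_append]
        change ev δ (δ (π a) (s, true)) (W2 ++ [(s, false)]) = _
        rw [ev_append]
        rfl

/-- **Completeness.** -/
theorem vk_complete [Finite Q] (hF : Follows P π δ) (τ0 : Q × Q) (H : ℕ)
    (g : Q × Q → ℕ → Option S)
    (hg : ∀ τ, τ ∈ below δ τ0 → Brn δ τ → ∀ τ', Mut δ τ τ' → ∀ u, Pth δ τ u τ' →
      ∀ (i : ℕ) (hi : i < u.length), g τ i = some u[i]) :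
    ∀ (k : ℕ) (τ : Q × Q), τ ∈ below δ τ0 → rk δ τ ≤ k →
      ∀ (h : ℕ) (x y : V), P.Bal h x y → (π x, π y) = τ → h < H → P.Vk H g k x y := by
  intro k
  induction k with
  | zero => intro τ _ hr; have := rk_pos (δ := δ) τ; omega
  | succ k ihk =>
    intro τ hτ hr
    by_cases hbr : Brn δ τ
    · -- counters
      have hgτ := hg τ hτ hbr
      have key : ∀ (h : ℕ) (x y : V), P.Bal h x y → ∀ u, Pth δ τ u (π x, π y) →
          Mut δ τ (π x, π y) → u.length + h < H →
          ReflTransGen (P.CStep (P.Vk H g k) H (g τ)) (x, u.length) (y, u.length) := by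
        intro h
        induction h with
        | zero =>
          intro x y hb
          induction hb using ReflTransGen.head_induction_on with
          | refl => intro u _ _ _; exact .refl
          | @head a b hs _ ih =>
            intro u hu hm hl
            have e : (π b, π y) = (π a, π y) := by rw [hF.N _ _ hs]
            refine ReflTransGen.head (b := (b, u.length)) (Or.inl ⟨hs, rfl⟩) (ih u (by rw [e]; exact hu)
              (by rw [e]; exact hm) hl)
        | succ h ihh =>
          intro x y hb
          induction hb using ReflTransGen.head_induction_on with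
          | refl => intro u _ _ _; exact .refl
          | @head a b hs hrest ih =>
            intro u hu hm hl
            rcases hs with hs | ⟨s, p, q, h1, h2, h3⟩
            · have e : (π b, π y) = (π a, π y) := by rw [hF.N _ _ hs]
              exact ReflTransGen.head (b := (b, u.length)) (Or.inl ⟨hs, rfl⟩) (ih u (by rw [e]; exact hu)
                (by rw [e]; exact hm) hl)
            · have p1 : Pr δ (π p, π q) := bal_pr hF h _ _ h2
              have p2 : Pr δ (π b, π y) := bal_pr hF (h + 1) _ _ hrest
              have E1 : Ed δ (π a, π y) [s] (π p, π q) := by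
                refine ⟨s, π q, ?_, ?_, Or.inl ⟨?_, rfl⟩⟩
                · rw [← hF.U _ _ _ h1]; exact p1
                · rw [← hF.O _ _ _ h3]; exact p2
                · rw [← hF.U _ _ _ h1]
              have E2 : Ed δ (π a, π y) [] (π b, π y) := by
                refine ⟨s, π q, ?_, ?_, Or.inr ⟨?_, rfl⟩⟩
                · rw [← hF.U _ _ _ h1]; exact p1
                · rw [← hF.O _ _ _ h3]; exact p2
                · rw [← hF.O _ _ _ h3]
              have P1 := hu.tail E1
              have P2 := hu.tail E2
              rw [List.append_nil] at P2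
              have first : ReflTransGen (P.CStep (P.Vk H g k) H (g τ)) (a, u.length)
                  (b, u.length) := by
                by_cases m1 : τ ∈ below δ (π p, π q)
                · have hgs : g τ u.length = some s := by
                    have := hgτ (π p, π q) ⟨⟨_, P1⟩, m1⟩ _ P1 u.length (by simp)
                    rw [this]
                    simp
                  have h4 := ihh p q h2 (u ++ [s]) P1 ⟨⟨_, P1⟩, m1⟩
                    (by simp only [List.length_append, List.length_singleton]; omega)
                  simp only [List.length_append, List.length_singleton] at h4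
                  refine ReflTransGen.head (b := (p, u.length + 1))
                    (Or.inr (Or.inl ⟨s, hgs, h1, rfl, by simp only; omega⟩)) ?_
                  exact h4.tail (Or.inr (Or.inr (Or.inl ⟨s, hgs, h3, rfl, by simp only; omega⟩)))
                · have hlt := rk_lt (δ := δ) ⟨_, P1⟩ m1
                  have h4 := ihk _ (below_trans hτ ⟨_, P1⟩) (by omega) h p q h2 rfl (by omega)
                  exact ReflTransGen.single (Or.inr (Or.inr (Or.inr (Or.inr
                    ⟨s, p, q, h1, h4, h3, rfl⟩))))
              refine first.trans ?_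
              by_cases m2 : τ ∈ below δ (π b, π y)
              · exact ih u P2 ⟨⟨_, P2⟩, m2⟩ hl
              · have hlt := rk_lt (δ := δ) ⟨_, P2⟩ m2
                have h4 := ihk _ (below_trans hτ ⟨_, P2⟩) (by omega) (h + 1) b y hrest rfl
                  (by omega)
                exact ReflTransGen.single (Or.inr (Or.inr (Or.inr (Or.inl ⟨h4, rfl⟩))))
      intro h x y hb hxy hH
      left
      refine ⟨τ, ?_⟩
      have := key h x y hb [] (by rw [hxy]; exact .refl τ) (by rw [hxy]; exact mut_refl τ)
        (by simpa using hH)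
      simpa using this
    · -- spines
      have key : ∀ (h : ℕ) (x y : V), P.Bal h x y → Mut δ τ (π x, π y) → h < H →
          ∃ z, ReflTransGen (P.SStep (P.Vk H g k)) (x, y) (z, z) := by
        intro h
        induction h with
        | zero =>
          intro x y hb
          induction hb using ReflTransGen.head_induction_on with
          | refl => intro _ _; exact ⟨y, .refl⟩
          | @head a b hs _ ih =>
            intro hm hl
            have e : (π b, π y) = (π a, π y) := by rw [hF.N _ _ hs]
            obtain ⟨z, hz⟩ := ih (by rw [e]; exact hm) hl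
            exact ⟨z, ReflTransGen.head (b := (b, y)) (Or.inl ⟨hs, rfl⟩) hz⟩
        | succ h ihh =>
          intro x y hb
          induction hb using ReflTransGen.head_induction_on with
          | refl => intro _ _; exact ⟨y, .refl⟩
          | @head a b hs hrest ih =>
            intro hm hl
            rcases hs with hs | ⟨s, p, q, h1, h2, h3⟩
            · have e : (π b, π y) = (π a, π y) := by rw [hF.N _ _ hs]
              obtain ⟨z, hz⟩ := ih (by rw [e]; exact hm) hl
              exact ⟨z, ReflTransGen.head (b := (b, y)) (Or.inl ⟨hs, rfl⟩) hz⟩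
            · have p1 : Pr δ (π p, π q) := bal_pr hF h _ _ h2
              have p2 : Pr δ (π b, π y) := bal_pr hF (h + 1) _ _ hrest
              have E1 : Ed δ (π a, π y) [s] (π p, π q) := by
                refine ⟨s, π q, ?_, ?_, Or.inl ⟨?_, rfl⟩⟩
                · rw [← hF.U _ _ _ h1]; exact p1
                · rw [← hF.O _ _ _ h3]; exact p2
                · rw [← hF.U _ _ _ h1]
              have E2 : Ed δ (π a, π y) [] (π b, π y) := by
                refine ⟨s, π q, ?_, ?_, Or.inr ⟨?_, rfl⟩⟩
                · rw [← hF.U _ _ _ h1]; exact p1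
                · rw [← hF.O _ _ _ h3]; exact p2
                · rw [← hF.O _ _ _ h3]
              have B1 : (π p, π q) ∈ below δ τ := by
                obtain ⟨u, hu⟩ := hm.1
                exact ⟨_, hu.tail E1⟩
              have B2 : (π b, π y) ∈ below δ τ := by
                obtain ⟨u, hu⟩ := hm.1
                exact ⟨_, hu.tail E2⟩
              by_cases m1 : τ ∈ below δ (π p, π q)
              · have m2 : τ ∉ below δ (π b, π y) := by
                  intro m2
                  refine hbr ⟨(π a, π y), hm, s, π q, ?_, ?_, ?_, ?_⟩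
                  · rw [← hF.U _ _ _ h1]; exact p1
                  · rw [← hF.O _ _ _ h3]; exact p2
                  · rw [← hF.U _ _ _ h1]; exact ⟨B1, m1⟩
                  · rw [← hF.O _ _ _ h3]; exact ⟨B2, m2⟩
                have hlt := rk_lt (δ := δ) B2 m2
                have h4 := ihk _ (below_trans hτ B2) (by omega) (h + 1) b y hrest rfl hl
                obtain ⟨z, hz⟩ := ihh p q h2 ⟨B1, m1⟩ (by omega)
                exact ⟨z, ReflTransGen.head (Or.inr (Or.inr (Or.inr ⟨s, b, h1, h3, h4⟩))) hz⟩
              · have hlt := rk_lt (δ := δ) B1 m1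
                have h4 := ihk _ (below_trans hτ B1) (by omega) h p q h2 rfl (by omega)
                have step1 : P.SStep (P.Vk H g k) (a, y) (b, y) :=
                  Or.inr (Or.inr (Or.inl ⟨s, p, q, h1, h4, h3, rfl⟩))
                by_cases m2 : τ ∈ below δ (π b, π y)
                · obtain ⟨z, hz⟩ := ih ⟨B2, m2⟩ hl
                  exact ⟨z, ReflTransGen.head step1 hz⟩
                · have hlt2 := rk_lt (δ := δ) B2 m2
                  have h5 := ihk _ (below_trans hτ B2) (by omega) (h + 1) b y hrest rfl hl
                  exact ⟨y, ReflTransGen.head step1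
                    (ReflTransGen.single (Or.inr (Or.inl ⟨h5, rfl⟩)))⟩
      intro h x y hb hxy hH
      right
      exact key h x y hb (by rw [hxy]; exact mut_refl τ) hH

end Pool.Agent.V8H47.NLK
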