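import Pool.Agent.V8H47.NLK.Types

/-!
# Branching types with two labels of the same length
-/

namespace Pool.Agent.V8H47.NLK

open Relation Pool.Agent.V8H47.MH

variable {S Q : Type} [DecidableEq S] {δ : Q → S × Bool → Q}

theorem pr_of_path {τ τ' : Q × Q} {u : List S} (h : Pth δ τ u τ') (hp : Pr δ τ) : Pr δ τ' := by
  cases h with
  | refl => exact hp
  | tail _ h => exact h.pr

theorem pr_of_brn {τ : Q × Q} (h : Brn δ τ) : Pr δ τ := by
  obtain ⟨τ', _, s, r', h1, _, h3, _⟩ := h
  obtain ⟨u, hu⟩ := h3.2
  exact pr_of_path hu h1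

/-- A branching type with two different labels of the same length makes the language rich. -/
theorem rich_of {R : Language (S × Bool)} (M : DFA (S × Bool) Q) (hM : M.accepts = R)
    {τ : Q × Q} {qf : Q} (hqf : qf ∈ M.accept) (hτ : τ ∈ below M.step (M.start, qf))
    (hb : Brn M.step τ) {u v : List S} (hu : Pth M.step τ u τ) (hv : Pth M.step τ v τ)
    (hl : u.length = v.length) (hne : u ≠ v) : Rich R := by
  obtain ⟨t, ht1, ht2⟩ := pr_of_brn hb
  obtain ⟨τ', ⟨⟨w1, hw1⟩, _⟩, s, r', h1, h2, ⟨_, ⟨w2, hw2⟩⟩, ⟨_, ⟨w3, hw3⟩⟩⟩ := hb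
  obtain ⟨u0, hu0⟩ := hτ
  obtain ⟨p, e, p1, p2, p3, p4⟩ := hu0.words
  obtain ⟨x, x', x1, x2, x3, x4⟩ := hu.words
  obtain ⟨y, y', y1, y2, y3, y4⟩ := hv.words
  obtain ⟨f, f', f1, f2, f3, f4⟩ := hw1.words
  obtain ⟨g, g', g1, g2, g3, g4⟩ := hw2.words
  obtain ⟨k, k', k1, k2, k3, k4⟩ := hw3.words
  refine ⟨p, e, x, x', y, y', f ++ (s, true) :: g, g' ++ (s, false) :: k, k' ++ f', t,
    u0.reverse, u.reverse, v.reverse, w2.reverse ++ s :: w1.reverse, w3.reverse ++ w1.reverse,
    p1, p2, x1, x2, y1, y2, ?_, ?_, ?_, ht1, by simpa using hl,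
    fun h => hne (List.reverse_injective h), ?_⟩
  · refine runS_trans f1 ?_
    simp only [runS]
    have := runS_frame g _ _ (s :: w1.reverse) g1
    simpa using this
  · refine runS_trans (runS_frame g' _ _ (s :: w1.reverse) g2) ?_
    simp only [List.nil_append, runS, if_true]
    have := runS_frame k _ _ w1.reverse k1
    simpa using this
  · refine runS_trans (runS_frame k' _ _ w1.reverse k2) ?_
    simpa using f2
  · intro w hw
    have ha : ev M.step τ.1 (f ++ (s, true) :: g) = τ.1 := by
      rw [ev_append, f3]
      exact g3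
    have hb : ev M.step τ.2 (g' ++ (s, false) :: k) = τ.1 := by
      rw [ev_append, g4]
      exact k3
    have hc : ev M.step τ.2 (k' ++ f') = τ.2 := by
      rw [ev_append, k4]
      exact f4
    have key : ev M.step τ.1 w = τ.2 := by
      generalize f ++ (s, true) :: g = a at ha hw
      generalize g' ++ (s, false) :: k = b at hb hw
      generalize k' ++ f' = c at hc hw
      induction hw with
      | base => exact ht2
      | left _ ih => rw [ev_append, ev_append, x3, ih, x4]
      | right _ ih => rw [ev_append, ev_append, y3, ih, y4]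
      | both _ _ ih1 ih2 =>
        rw [ev_append, ev_append, ev_append, ev_append, ha, ih1, hb, ih2, hc]
    have h5 : ev M.step M.start (p ++ w ++ e) = qf := by
      rw [ev_append, ev_append, p3, key, p4]
    rw [← hM]
    change M.eval (p ++ w ++ e) ∈ M.accept
    have h6 : M.eval (p ++ w ++ e) = ev M.step M.start (p ++ w ++ e) := rfl
    rw [h6, h5]
    exact hqf

theorem pth_pow {τ : Q × Q} {u : List S} (h : Pth δ τ u τ) : ∀ n : ℕ,
    Pth δ τ (List.replicate n u).flatten τ := by
  intro n
  induction n with
  | zero => exact .refl τ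
  | succ n ih => rw [List.replicate_succ, List.flatten_cons]; exact h.trans ih

theorem getElem?_pow (u : List S) : ∀ (n i : ℕ), i < n * u.length →
    (List.replicate n u).flatten[i]? = u[i % u.length]? := by
  intro n
  induction n with
  | zero => intro i h; simp at h
  | succ n ih =>
    intro i h
    rw [List.replicate_succ, List.flatten_cons]
    by_cases hi : i < u.length
    · rw [List.getElem?_append_left hi, Nat.mod_eq_of_lt hi]
    · have hi' : u.length ≤ i := by omega
      rw [List.getElem?_append_right hi', ih, Nat.mod_eq_sub_mod hi']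
      rw [add_mul] at h
      omega

/-- The labels are given by a periodic function. -/
theorem exists_f {τ : Q × Q} (hu : ∀ u v, Pth δ τ u τ → Pth δ τ v τ → u.length = v.length →
    u = v) : ∃ f : ℕ → Option S, (∃ p, 0 < p ∧ ∀ m, f m = f (m % p)) ∧
      ∀ τ', Mut δ τ τ' → ∀ u, Pth δ τ u τ' → ∀ (i : ℕ) (hi : i < u.length),
        f i = some u[i] := by
  by_cases hex : ∃ l, l ≠ [] ∧ Pth δ τ l τ
  · obtain ⟨l, hl, hp⟩ := hex
    have hlen : 0 < l.length := List.length_pos_iff.2 hl
    refine ⟨fun m => l[m % l.length]?, ⟨l.length, hlen, fun m => ?_⟩, ?_⟩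
    · simp only [Nat.mod_mod]
    · intro τ' hm u hu' i hi
      obtain ⟨v, hv⟩ := hm.2
      have hz := hu'.trans hv
      have e1 := pth_pow hz l.length
      have e2 := pth_pow hp (u ++ v).length
      have e3 := hu _ _ e1 e2 (by
        simp only [List.length_flatten, List.map_replicate, List.sum_replicate, smul_eq_mul]
        ring)
      have e4 : (List.replicate l.length (u ++ v)).flatten[i]? = some u[i] := by
        rw [getElem?_pow]
        · rw [Nat.mod_eq_of_lt (by rw [List.length_append]; omega),
            List.getElem?_append_left hi, List.getElem?_eq_getElem hi]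
        · rw [List.length_append]
          calc i < u.length + v.length := by omega
            _ ≤ l.length * (u.length + v.length) := Nat.le_mul_of_pos_left _ hlen
      rw [e3, getElem?_pow] at e4
      · exact e4
      · rw [List.length_append]
        calc i < u.length + v.length := by omega
          _ ≤ (u.length + v.length) * l.length := Nat.le_mul_of_pos_right _ hlen
  · refine ⟨fun _ => none, ⟨1, one_pos, fun _ => rfl⟩, ?_⟩
    intro τ' hm u hu' i hi
    obtain ⟨v, hv⟩ := hm.2
    have hz := hu'.trans hv
    exfalso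
    apply hex
    refine ⟨u ++ v, ?_, hz⟩
    intro h
    have := congrArg List.length h
    simp only [List.length_append, List.length_nil] at this
    omega

end Pool.Agent.V8H47.NLK
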