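import Pool.Agent.V8H47.NLK.TC

/-!
# Counters of polynomial size
-/

namespace Pool.Agent.V8H47.NLK

open Relation Pool.Agent.V8H47.MH

variable {α ι κ T : Type}

theorem IsNL.listForall {P : T → List α → (ι → ℕ) → Prop} (hP : ∀ t, IsNL (P t)) :
    ∀ L : List T, IsNL (fun w v => ∀ t ∈ L, P t w v) := by
  intro L
  induction L with
  | nil => exact (IsNL.const True).congr (fun w v _ => by simp)
  | cons a L ih =>
    exact ((hP a).and ih).congr (fun w v _ => by simp)

theorem IsNL.iForall [Finite T] {P : T → List α → (ι → ℕ) → Prop} (hP : ∀ t, IsNL (P t)) :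
    IsNL (fun w v => ∀ t, P t w v) := by
  have := Fintype.ofFinite T
  exact (IsNL.listForall hP (Finset.univ : Finset T).toList).congr (fun w v _ => by simp)

/-- the successor relation for numbers with `d` digits in base `n + 2` (least digit first) -/
def SuccD (n : ℕ) : ∀ d : ℕ, (Fin d → ℕ) → (Fin d → ℕ) → Prop
  | 0, _, _ => False
  | d + 1, x, y => (y 0 = x 0 + 1 ∧ ∀ i : Fin d, y i.succ = x i.succ) ∨
      (x 0 = n + 1 ∧ y 0 = 0 ∧ SuccD n d (fun i => x i.succ) (fun i => y i.succ))

/-- the value of a number -/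
def valD (n : ℕ) : ∀ d : ℕ, (Fin d → ℕ) → ℕ
  | 0, _ => 0
  | d + 1, x => x 0 + (n + 2) * valD n d (fun i => x i.succ)

/-- the digits of a number -/
def encD (n : ℕ) : ∀ d : ℕ, ℕ → Fin d → ℕ
  | 0, _ => fun i => i.elim0
  | d + 1, m => Fin.cons (m % (n + 2)) (encD n d (m / (n + 2)))

theorem valD_succ {n : ℕ} : ∀ {d : ℕ} {x y : Fin d → ℕ}, SuccD n d x y →
    valD n d y = valD n d x + 1 := by
  intro d
  induction d with
  | zero => intro x y h; exact h.elim
  | succ d ih =>
    intro x y h
    rcases h with ⟨h1, h2⟩ | ⟨h1, h2, h3⟩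
    · simp only [valD, h1]
      have : (fun i : Fin d => y i.succ) = fun i => x i.succ := funext h2
      rw [this]
      ring
    · simp only [valD, h1, h2, ih h3]
      ring

theorem encD_succ {n : ℕ} : ∀ {d m : ℕ}, m + 1 < (n + 2) ^ d →
    SuccD n d (encD n d m) (encD n d (m + 1)) := by
  intro d
  induction d with
  | zero => intro m h; simp at h
  | succ d ih =>
    intro m h
    have hpos : 0 < n + 2 := by omega
    by_cases hm : m % (n + 2) + 1 < n + 2
    · left
      have h1 : (m + 1) % (n + 2) = m % (n + 2) + 1 := by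
        rw [Nat.add_mod, Nat.mod_eq_of_lt (show 1 < n + 2 by omega), Nat.mod_eq_of_lt hm]
      have h2 : (m + 1) / (n + 2) = m / (n + 2) := by
        have e1 := Nat.div_add_mod (m + 1) (n + 2)
        have e2 := Nat.div_add_mod m (n + 2)
        rw [h1] at e1
        have : (n + 2) * ((m + 1) / (n + 2)) = (n + 2) * (m / (n + 2)) := by omega
        exact Nat.eq_of_mul_eq_mul_left hpos this
      refine ⟨?_, fun i => ?_⟩
      · simp only [encD, Fin.cons_zero, h1]
      · simp only [encD, Fin.cons_succ, h2]
    · right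
      have hm' : m % (n + 2) = n + 1 := by
        have := Nat.mod_lt m hpos
        omega
      have e2 := Nat.div_add_mod m (n + 2)
      have h3 : m + 1 = (n + 2) * (m / (n + 2) + 1) := by
        rw [hm'] at e2
        rw [mul_add]
        omega
      have h1 : (m + 1) % (n + 2) = 0 := by rw [h3]; exact Nat.mul_mod_right _ _
      have h2 : (m + 1) / (n + 2) = m / (n + 2) + 1 := by
        rw [h3]; exact Nat.mul_div_cancel_left _ hpos
      refine ⟨?_, ?_, ?_⟩
      · simp only [encD, Fin.cons_zero, hm']
      · simp only [encD, Fin.cons_zero, h1]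
      · simp only [encD, Fin.cons_succ, h2]
        apply ih
        have h4 : (n + 2) * (m / (n + 2) + 1) < (n + 2) * (n + 2) ^ d := by
          rw [← h3]
          calc m + 1 < (n + 2) ^ (d + 1) := h
            _ = (n + 2) * (n + 2) ^ d := by rw [pow_succ]; ring
        exact Nat.lt_of_mul_lt_mul_left h4

theorem encD_le {n : ℕ} : ∀ {d m : ℕ} (i : Fin d), encD n d m i ≤ n + 1 := by
  intro d
  induction d with
  | zero => intro m i; exact i.elim0
  | succ d ih =>
    intro m i
    refine Fin.cases ?_ (fun i => ?_) i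
    · simp only [encD, Fin.cons_zero]
      have := Nat.mod_lt m (show 0 < n + 2 by omega)
      omega
    · simp only [encD, Fin.cons_succ]
      exact ih i

theorem encD_zero {n : ℕ} : ∀ {d : ℕ} (i : Fin d), encD n d 0 i = 0 := by
  intro d
  induction d with
  | zero => intro i; exact i.elim0
  | succ d ih =>
    intro i
    refine Fin.cases ?_ (fun i => ?_) i
    · simp [encD]
    · simp only [encD, Fin.cons_succ, Nat.zero_div]
      exact ih i

theorem valD_zero {n : ℕ} : ∀ {d : ℕ} {x : Fin d → ℕ}, (∀ i, x i = 0) → valD n d x = 0 := by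
  intro d
  induction d with
  | zero => intro x _; rfl
  | succ d ih =>
    intro x h
    simp only [valD, h 0, ih (fun i => h i.succ)]
    omega

theorem IsNL.succD : ∀ (d : ℕ) (σ τ : Fin d → ι),
    IsNL (fun (w : List α) v => SuccD w.length d (fun i => v (σ i)) (fun i => v (τ i))) := by
  intro d
  induction d with
  | zero => intro σ τ; exact IsNL.const False
  | succ d ih =>
    intro σ τ
    refine IsNL.or ?_ ?_
    · exact (IsNL.succ (σ 0) (τ 0)).and (IsNL.iForall (fun i => IsNL.eq (τ i.succ) (σ i.succ)))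
    · exact (IsNL.top (σ 0)).and ((IsNL.zero (τ 0)).and
        (ih (fun i => σ i.succ) (fun i => τ i.succ)))

end Pool.Agent.V8H47.NLK
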