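import Pool.Agent.V8H47.MH.BM

/-!
# Relations computed by flowcharts

The entry-exit relations of flowcharts are closed under reflexive transitive closure (with finite
control), composition and union.
-/

namespace Pool.Agent.V8H47.NLK

open Relation Pool.Agent.V8H47.MH

/-- a relation between register contents, for each input word -/
abbrev Rel (α R : Type) := List α → (R → ℕ) → (R → ℕ) → Prop

variable {α R : Type} [DecidableEq R]

/-- `r` is the entry-exit relation of a flowchart -/
def Impl (r : Rel α R) : Prop :=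
  ∃ (M : BM α R) (f : M.Q), ∀ w p p', ReflTransGen (M.Step w) ⟨M.init, p⟩ ⟨f, p'⟩ ↔ r w p p'

theorem Impl.congr {r r' : Rel α R} (h : Impl r) (he : ∀ w p p', r w p p' ↔ r' w p p') :
    Impl r' := by
  obtain ⟨M, f, hM⟩ := h
  exact ⟨M, f, fun w p p' => (hM w p p').trans (he w p p')⟩

/-- a list of elementary actions -/
theorem Impl.prims (l : List (Prim α R)) : Impl (fun w p p' => runPrims w l p p') := by
  let M : BM α R :=
    { Q := Bool, finQ := inferInstance, I := Unit, finI := inferInstance, init := false,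
      acc := ∅, src := fun _ => false, dst := fun _ => true, body := fun _ => l }
  refine ⟨M, true, fun w p p' => ?_⟩
  have key : ∀ c, ReflTransGen (M.Step w) ⟨M.init, p⟩ c →
      (c = ⟨false, p⟩ ∨ (c.q = true ∧ runPrims w l p c.pos)) := by
    intro c hc
    induction hc with
    | refl => exact Or.inl rfl
    | @tail c c' _ hs ih =>
      obtain ⟨i, h1, h2, h3⟩ := hs
      rcases ih with rfl | ⟨h4, _⟩
      · exact Or.inr ⟨h2, h3⟩
      · have : c.q = false := h1
        rw [h4] at this
        exact Bool.noConfusion this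
  constructor
  · intro h
    rcases key _ h with h1 | ⟨_, h1⟩
    · have := congrArg FCfg.q h1
      exact Bool.noConfusion this
    · exact h1
  · intro h
    exact ReflTransGen.single ⟨(), rfl, rfl, h⟩

section auto

variable {T : Type} [Finite T]

/-- gluing flowcharts along the edges of a finite graph -/
def glue (M : T × T → BM α R) (f : ∀ x, (M x).Q) (i : T) : BM α R where
  Q := T ⊕ (Σ x : T × T, (M x).Q)
  finQ := by
    have := fun x => (M x).finQ
    infer_instance
  I := ((T × T) × Bool) ⊕ (Σ x : T × T, (M x).I)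
  finI := by
    have := fun x => (M x).finI
    infer_instance
  init := Sum.inl i
  acc := ∅
  src := fun j => match j with
    | Sum.inl (x, false) => Sum.inl x.1
    | Sum.inl (x, true) => Sum.inr ⟨x, f x⟩
    | Sum.inr ⟨x, j⟩ => Sum.inr ⟨x, (M x).src j⟩
  dst := fun j => match j with
    | Sum.inl (x, false) => Sum.inr ⟨x, (M x).init⟩
    | Sum.inl (x, true) => Sum.inl x.2
    | Sum.inr ⟨x, j⟩ => Sum.inr ⟨x, (M x).dst j⟩
  body := fun j => match j with
    | Sum.inl _ => []
    | Sum.inr ⟨x, j⟩ => (M x).body j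

/-- the steps along the edges of the graph -/
def TStep (ρ : T → T → Rel α R) (w : List α) (c c' : T × (R → ℕ)) : Prop :=
  ρ c.1 c'.1 w c.2 c'.2

theorem glue_sound (M : T × T → BM α R) (f : ∀ x, (M x).Q) (i : T) (ρ : T → T → Rel α R)
    (hM : ∀ x w p p', ReflTransGen ((M x).Step w) ⟨(M x).init, p⟩ ⟨f x, p'⟩ ↔
      ρ x.1 x.2 w p p') (w : List α) (p : R → ℕ) (c : FCfg (glue M f i).Q R)
    (h : ReflTransGen ((glue M f i).Step w) ⟨Sum.inl i, p⟩ c) :
    (∃ t, c.q = Sum.inl t ∧ ReflTransGen (TStep ρ w) (i, p) (t, c.pos)) ∨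
    (∃ x q, c.q = Sum.inr ⟨x, q⟩ ∧ ∃ p0, ReflTransGen (TStep ρ w) (i, p) (x.1, p0) ∧
      ReflTransGen ((M x).Step w) ⟨(M x).init, p0⟩ ⟨q, c.pos⟩) := by
  induction h with
  | refl => exact Or.inl ⟨i, rfl, .refl⟩
  | @tail c c' _ hs ih =>
    obtain ⟨j, h1, h2, h3⟩ := hs
    rcases j with ⟨x, b⟩ | ⟨x, j⟩
    · cases b with
      | false =>
        have e : c'.pos = c.pos := h3
        rcases ih with ⟨t, h4, h5⟩ | ⟨y, q, h4, _⟩
        · rw [h4] at h1
          have h6 : t = x.1 := Sum.inl.inj h1
          subst h6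
          refine Or.inr ⟨x, _, h2, c.pos, h5, ?_⟩
          rw [e]
        · rw [h4] at h1
          exact absurd h1 (by simp [glue])
      | true =>
        have e : c'.pos = c.pos := h3
        rcases ih with ⟨t, h4, _⟩ | ⟨y, q, h4, p0, h5, h6⟩
        · rw [h4] at h1
          exact absurd h1 (by simp [glue])
        · rw [h4] at h1
          have h7 : (⟨y, q⟩ : Σ x : T × T, (M x).Q) = ⟨x, f x⟩ := Sum.inr.inj h1
          obtain rfl : y = x := congrArg Sigma.fst h7
          have h8 : q = f y := eq_of_heq (Sigma.mk.inj h7).2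
          subst h8
          refine Or.inl ⟨y.2, h2, h5.tail ?_⟩
          rw [e]
          exact (hM y w p0 c.pos).1 h6
    · rcases ih with ⟨t, h4, _⟩ | ⟨y, q, h4, p0, h5, h6⟩
      · rw [h4] at h1
        exact absurd h1 (by simp [glue])
      · rw [h4] at h1
        have h7 : (⟨y, q⟩ : Σ x : T × T, (M x).Q) = ⟨x, (M x).src j⟩ := Sum.inr.inj h1
        obtain rfl : y = x := congrArg Sigma.fst h7
        have h8 : q = (M y).src j := eq_of_heq (Sigma.mk.inj h7).2
        subst h8
        exact Or.inr ⟨y, _, h2, p0, h5, h6.tail ⟨j, rfl, rfl, h3⟩⟩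

/-- **Gluing.** -/
theorem Impl.auto (i f : T) (ρ : T → T → Rel α R) (h : ∀ t t', Impl (ρ t t')) :
    Impl (fun w p p' => ReflTransGen (TStep ρ w) (i, p) (f, p')) := by
  have h' : ∀ x : T × T, Impl (ρ x.1 x.2) := fun x => h x.1 x.2
  choose M g hM using h'
  refine ⟨glue M g i, Sum.inl f, fun w p p' => ⟨fun hr => ?_, fun hr => ?_⟩⟩
  · rcases glue_sound M g i ρ hM w p _ hr with ⟨t, h1, h2⟩ | ⟨x, q, h1, _⟩
    · have := Sum.inl.inj h1
      subst this
      exact h2
    · exact absurd h1 (by simp)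
  · have key : ∀ c c' : T × (R → ℕ), TStep ρ w c c' →
        ReflTransGen ((glue M g i).Step w) ⟨Sum.inl c.1, c.2⟩ ⟨Sum.inl c'.1, c'.2⟩ := by
      rintro ⟨t, p⟩ ⟨t', p'⟩ hs
      have h1 := (hM (t, t') w p p').2 hs
      have h2 : ∀ d d' : FCfg (M (t, t')).Q R, (M (t, t')).Step w d d' →
          (glue M g i).Step w ⟨Sum.inr ⟨(t, t'), d.q⟩, d.pos⟩ ⟨Sum.inr ⟨(t, t'), d'.q⟩, d'.pos⟩ := by
        rintro d d' ⟨j, h3, h4, h5⟩
        exact ⟨Sum.inr ⟨(t, t'), j⟩, by simp [glue, h3], by simp [glue, h4], h5⟩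
      have h3 : ReflTransGen ((glue M g i).Step w)
          ⟨Sum.inr ⟨(t, t'), (M (t, t')).init⟩, p⟩ ⟨Sum.inr ⟨(t, t'), g (t, t')⟩, p'⟩ :=
        ReflTransGen.lift (fun d : FCfg (M (t, t')).Q R =>
          (⟨Sum.inr ⟨(t, t'), d.q⟩, d.pos⟩ : FCfg (glue M g i).Q R)) h2 _ _ h1
      have e1 : (glue M g i).Step w ⟨Sum.inl t, p⟩
          ⟨Sum.inr ⟨(t, t'), (M (t, t')).init⟩, p⟩ :=
        ⟨Sum.inl ((t, t'), false), rfl, rfl, rfl⟩
      have e2 : (glue M g i).Step w ⟨Sum.inr ⟨(t, t'), g (t, t')⟩, p'⟩ ⟨Sum.inl t', p'⟩ :=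
        ⟨Sum.inl ((t, t'), true), rfl, rfl, rfl⟩
      exact (ReflTransGen.head e1 h3).tail e2
    have h2 : ∀ c c' : T × (R → ℕ), ReflTransGen (TStep ρ w) c c' →
        ReflTransGen ((glue M g i).Step w) ⟨Sum.inl c.1, c.2⟩ ⟨Sum.inl c'.1, c'.2⟩ := by
      intro c c' hc
      induction hc with
      | refl => exact .refl
      | tail _ hs ih => exact ih.trans (key _ _ hs)
    exact h2 _ _ hr

end auto

theorem Impl.empty : Impl (fun (_ : List α) (_ _ : R → ℕ) => False) := by
  refine (Impl.prims [.mv (fun _ => False) (fun _ => Dir.S)]).congr (fun w p p' => ?_)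
  simp [runPrims, Prim.sem]

theorem Impl.id : Impl (fun (_ : List α) (p p' : R → ℕ) => p' = p) := by
  refine (Impl.prims []).congr (fun w p p' => Iff.rfl)

/-- composition -/
theorem Impl.seq {r s : Rel α R} (hr : Impl r) (hs : Impl s) :
    Impl (fun w p p' => ∃ q, r w p q ∧ s w q p') := by
  let ρ : Fin 3 → Fin 3 → Rel α R := fun a b =>
    if a = 0 ∧ b = 1 then r else if a = 1 ∧ b = 2 then s else fun _ _ _ => False
  have hρ : ∀ a b, Impl (ρ a b) := by
    intro a b
    simp only [ρ]
    split_ifs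
    · exact hr
    · exact hs
    · exact Impl.empty
  refine (Impl.auto 0 2 ρ hρ).congr (fun w p p' => ?_)
  constructor
  · intro h
    have key : ∀ c, ReflTransGen (TStep ρ w) (0, p) c →
        (c = (0, p)) ∨ (c.1 = 1 ∧ r w p c.2) ∨ (c.1 = 2 ∧ ∃ q, r w p q ∧ s w q c.2) := by
      intro c hc
      induction hc with
      | refl => exact Or.inl rfl
      | @tail c c' _ hs ih =>
        obtain ⟨t', q'⟩ := c'
        rcases ih with rfl | ⟨h1, h2⟩ | ⟨h1, h2⟩
        · fin_cases t' <;> simp [TStep, ρ] at hs ⊢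
          exact hs
        · obtain ⟨t, q⟩ := c
          simp only at h1 h2
          subst h1
          fin_cases t' <;> simp [TStep, ρ] at hs ⊢
          exact ⟨q, h2, hs⟩
        · obtain ⟨t, q⟩ := c
          simp only at h1 h2
          subst h1
          fin_cases t' <;> simp [TStep, ρ] at hs ⊢
    rcases key _ h with h1 | ⟨h1, _⟩ | ⟨_, h1⟩
    · have := congrArg Prod.fst h1
      simp at this
    · simp at h1
    · exact h1
  · rintro ⟨q, h1, h2⟩
    have e1 : TStep ρ w (0, p) (1, q) := by simpa [TStep, ρ] using h1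
    have e2 : TStep ρ w (1, q) (2, p') := by simpa [TStep, ρ] using h2
    exact (ReflTransGen.single e1).tail e2

/-- finite union -/
theorem Impl.iUnion {ι : Type} [Finite ι] {r : ι → Rel α R} (hr : ∀ i, Impl (r i)) :
    Impl (fun w p p' => ∃ i, r i w p p') := by
  let ρ : Option (Option ι) → Option (Option ι) → Rel α R := fun a b =>
    match a, b with
    | none, some (some i) => r i
    | some (some _), some none => fun _ p p' => p' = p
    | _, _ => fun _ _ _ => False
  have hρ : ∀ a b, Impl (ρ a b) := by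
    intro a b
    rcases a with _ | _ | a <;> rcases b with _ | _ | b <;> simp only [ρ] <;>
      first | exact Impl.empty | exact Impl.id | exact hr _
  refine (Impl.auto none (some none) ρ hρ).congr (fun w p p' => ?_)
  constructor
  · intro h
    have key : ∀ c, ReflTransGen (TStep ρ w) (none, p) c →
        (c = (none, p)) ∨ (∃ i, c.1 = some (some i) ∧ r i w p c.2) ∨
          (c.1 = some none ∧ ∃ i, r i w p c.2) := by
      intro c hc
      induction hc with
      | refl => exact Or.inl rfl
      | @tail c c' _ hs ih =>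
        obtain ⟨t', q'⟩ := c'
        rcases ih with rfl | ⟨i, h1, h2⟩ | ⟨h1, h2⟩
        · rcases t' with _ | _ | t' <;> simp only [TStep, ρ] at hs
          exact Or.inr (Or.inl ⟨t', rfl, hs⟩)
        · obtain ⟨t, q⟩ := c
          simp only at h1 h2
          subst h1
          rcases t' with _ | _ | t' <;> simp only [TStep, ρ] at hs
          subst hs
          exact Or.inr (Or.inr ⟨rfl, i, h2⟩)
        · obtain ⟨t, q⟩ := c
          simp only at h1 h2
          subst h1
          rcases t' with _ | _ | t' <;> simp only [TStep, ρ] at hs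
    rcases key _ h with h1 | ⟨i, h1, _⟩ | ⟨_, h1⟩
    · exact absurd (congrArg Prod.fst h1) (by simp)
    · exact absurd h1 (by simp)
    · exact h1
  · rintro ⟨i, h⟩
    have e1 : TStep ρ w (none, p) (some (some i), p') := h
    have e2 : TStep ρ w (some (some i), p') (some none, p') := rfl
    exact (ReflTransGen.single e1).tail e2

end Pool.Agent.V8H47.NLK
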