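import Pool.Agent.V8H47.NLK.Impl

/-!
# Relations on positions which are verified by multihead finite automata

`IsNL P` says that the relation `P` between positions of the input word is verified by
flowcharts. These relations are closed under conjunction, finite disjunction, existential
quantification and transitive closure.
-/

namespace Pool.Agent.V8H47.NLK

open Relation Pool.Agent.V8H47.MH

variable {α : Type}

/-- all registers hold positions of the tape -/
def Bdd {R : Type} (w : List α) (p : R → ℕ) : Prop := ∀ r, p r ≤ w.length + 1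

/-- The relation `P` can be verified without changing the first `m` registers, when its
arguments are in the first `m` registers. -/
def IsNL {ι : Type} (P : List α → (ι → ℕ) → Prop) : Prop :=
  ∀ m : ℕ, ∃ N0 : ℕ, ∀ N ≥ N0, ∀ x : ι → Fin N, (∀ i, (x i : ℕ) < m) →
    ∃ r : Rel α (Fin N), Impl r ∧
      (∀ w p p', Bdd w p → r w p p' → Bdd w p' ∧ (∀ i : Fin N, (i : ℕ) < m → p' i = p i) ∧
        P w (fun i => p (x i))) ∧
      (∀ w p, Bdd w p → P w (fun i => p (x i)) → ∃ p', r w p p')

variable {ι κ T : Type}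

theorem IsNL.congr {P P' : List α → (ι → ℕ) → Prop} (h : IsNL P)
    (he : ∀ w v, (∀ i, v i ≤ w.length + 1) → (P w v ↔ P' w v)) : IsNL P' := by
  intro m
  obtain ⟨N0, hN⟩ := h m
  refine ⟨N0, fun N hN' x hx => ?_⟩
  obtain ⟨r, h1, h2, h3⟩ := hN N hN' x hx
  refine ⟨r, h1, fun w p p' hb hr => ?_, fun w p hb hp => ?_⟩
  · obtain ⟨h4, h5, h6⟩ := h2 w p p' hb hr
    exact ⟨h4, h5, (he _ _ (fun i => hb _)).1 h6⟩
  · exact h3 w p hb ((he _ _ (fun i => hb _)).2 hp)

theorem IsNL.reindex {ι' : Type} {P : List α → (ι → ℕ) → Prop} (h : IsNL P) (σ : ι → ι') :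
    IsNL (fun w (v : ι' → ℕ) => P w (fun i => v (σ i))) := by
  intro m
  obtain ⟨N0, hN⟩ := h m
  exact ⟨N0, fun N hN' x hx => hN N hN' (fun i => x (σ i)) (fun i => hx _)⟩

theorem IsNL.atom (f : (ι → Sym α) → Prop) :
    IsNL (fun w v => f (fun i => symAt w (v i))) := by
  intro m
  refine ⟨0, fun N _ x hx => ⟨_, Impl.prims [.mv (fun s => f (fun i => s (x i)))
    (fun _ => Dir.S)], fun w p p' hb hr => ?_, fun w p hb hp => ?_⟩⟩
  · simp only [runPrims, Prim.sem] at hr
    obtain ⟨p1, ⟨h1, rfl⟩, rfl⟩ := hr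
    exact ⟨hb, fun _ _ => rfl, h1⟩
  · exact ⟨p, p, ⟨hp, rfl⟩, rfl⟩

theorem IsNL.eq (i j : ι) : IsNL (fun (_ : List α) v => v i = v j) := by
  intro m
  refine ⟨0, fun N _ x hx => ⟨_, Impl.prims [.eq [(x i, x j)]],
    fun w p p' hb hr => ?_, fun w p hb hp => ?_⟩⟩
  · simp only [runPrims, Prim.sem] at hr
    obtain ⟨p1, ⟨h1, rfl⟩, rfl⟩ := hr
    exact ⟨hb, fun _ _ => rfl, h1 (x i, x j) (by simp)⟩
  · refine ⟨p, p, ⟨?_, rfl⟩, rfl⟩
    intro y hy
    simp only [List.mem_singleton] at hy
    subst hy
    exact hp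

theorem IsNL.and {P Q : List α → (ι → ℕ) → Prop} (hP : IsNL P) (hQ : IsNL Q) :
    IsNL (fun w v => P w v ∧ Q w v) := by
  intro m
  obtain ⟨N1, h1⟩ := hP m
  obtain ⟨N2, h2⟩ := hQ m
  refine ⟨max N1 N2, fun N hN x hx => ?_⟩
  obtain ⟨r, hr, a1, a2⟩ := h1 N (le_trans (le_max_left _ _) hN) x hx
  obtain ⟨s, hs, b1, b2⟩ := h2 N (le_trans (le_max_right _ _) hN) x hx
  refine ⟨_, hr.seq hs, fun w p p' hb h => ?_, fun w p hb hp => ?_⟩
  · obtain ⟨q, h3, h4⟩ := h
    obtain ⟨c1, c2, c3⟩ := a1 w p q hb h3
    obtain ⟨d1, d2, d3⟩ := b1 w q p' c1 h4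
    refine ⟨d1, fun i hi => (d2 i hi).trans (c2 i hi), c3, ?_⟩
    have : (fun i => p (x i)) = fun i => q (x i) := by
      funext i; exact (c2 (x i) (hx i)).symm
    rw [this]
    exact d3
  · obtain ⟨q, h3⟩ := a2 w p hb hp.1
    obtain ⟨c1, c2, c3⟩ := a1 w p q hb h3
    have : (fun i => p (x i)) = fun i => q (x i) := by
      funext i; exact (c2 (x i) (hx i)).symm
    obtain ⟨p', h4⟩ := b2 w q c1 (by rw [← this]; exact hp.2)
    exact ⟨p', q, h3, h4⟩

theorem IsNL.iExists [Finite T] {P : T → List α → (ι → ℕ) → Prop} (hP : ∀ t, IsNL (P t)) :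
    IsNL (fun w v => ∃ t, P t w v) := by
  intro m
  choose N0 h0 using fun t => hP t m
  obtain ⟨K, hK⟩ : ∃ K, ∀ t, N0 t ≤ K := by
    have := Set.finite_range N0
    obtain ⟨K, hK⟩ := this.bddAbove
    exact ⟨K, fun t => hK ⟨t, rfl⟩⟩
  refine ⟨K, fun N hN x hx => ?_⟩
  have h1 := fun t => h0 t N ((hK t).trans hN) x hx
  choose r hr a1 a2 using h1
  refine ⟨_, Impl.iUnion hr, fun w p p' hb h => ?_, fun w p hb hp => ?_⟩
  · obtain ⟨t, h⟩ := h
    obtain ⟨c1, c2, c3⟩ := a1 t w p p' hb h
    exact ⟨c1, c2, t, c3⟩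
  · obtain ⟨t, ht⟩ := hp
    obtain ⟨p', h⟩ := a2 t w p hb ht
    exact ⟨p', t, h⟩

theorem IsNL.or {P Q : List α → (ι → ℕ) → Prop} (hP : IsNL P) (hQ : IsNL Q) :
    IsNL (fun w v => P w v ∨ Q w v) := by
  have h : ∀ b : Bool, IsNL (fun w v => (if b then P w v else Q w v : Prop)) := by
    intro b
    cases b
    · exact hQ.congr (fun w v _ => by simp)
    · exact hP.congr (fun w v _ => by simp)
  refine (IsNL.iExists h).congr (fun w v _ => ?_)
  constructor
  · rintro ⟨b, hb⟩
    cases b
    · exact Or.inr (by simpa using hb)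
    · exact Or.inl (by simpa using hb)
  · rintro (h | h)
    · exact ⟨true, by simpa using h⟩
    · exact ⟨false, by simpa using h⟩

theorem IsNL.const (c : Prop) : IsNL (fun (_ : List α) (_ : ι → ℕ) => c) :=
  IsNL.atom (fun _ => c)

/-- consecutive registers -/
def regs {N : ℕ} (m c : ℕ) (h : m + c ≤ N) (j : Fin c) : Fin N := ⟨m + j, by omega⟩

/-- existential quantification over positions -/
theorem IsNL.ex [Finite κ] {P : List α → (ι ⊕ κ → ℕ) → Prop} (hP : IsNL P) :
    IsNL (fun w v => ∃ a : κ → ℕ, (∀ k, a k ≤ w.length + 1) ∧ P w (Sum.elim v a)) := by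
  intro m
  obtain ⟨c, ⟨e⟩⟩ := Finite.exists_equiv_fin κ
  obtain ⟨N0, h0⟩ := hP (m + c)
  refine ⟨max N0 (m + c), fun N hN x hx => ?_⟩
  have hNc : m + c ≤ N := le_trans (le_max_right _ _) hN
  obtain ⟨r, hr, a1, a2⟩ := h0 N (le_trans (le_max_left _ _) hN)
    (Sum.elim x (fun k => regs m c hNc (e k)))
    (by
      rintro (i | k)
      · have := hx i; simp only [Sum.elim_inl]; omega
      · simp only [Sum.elim_inr, regs]; omega)
  refine ⟨_, (Impl.prims [.gs ((List.finRange c).map (regs m c hNc))]).seq hr,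
    fun w p p' hb h => ?_, fun w p hb hp => ?_⟩
  · obtain ⟨q, h3, h4⟩ := h
    simp only [runPrims, Prim.sem] at h3
    obtain ⟨q', ⟨h3, h5⟩, rfl⟩ := h3
    obtain ⟨d1, d2, d3⟩ := a1 w q p' h5 h4
    have hlow : ∀ i : Fin N, (i : ℕ) < m → q i = p i := by
      intro i hi
      refine h3 i ?_
      simp only [List.mem_map, List.mem_finRange, true_and, not_exists]
      intro j hj
      have := congrArg Fin.val hj
      simp only [regs] at this
      omega
    refine ⟨d1, fun i hi => (d2 i (by omega)).trans (hlow i hi),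
      fun k => q (regs m c hNc (e k)), fun k => h5 _, ?_⟩
    have : (Sum.elim (fun i => p (x i)) fun k => q (regs m c hNc (e k))) =
        fun i => q (Sum.elim x (fun k => regs m c hNc (e k)) i) := by
      funext i
      rcases i with i | k
      · simp only [Sum.elim_inl]; exact (hlow _ (hx i)).symm
      · simp only [Sum.elim_inr]
    rw [this]
    exact d3
  · obtain ⟨a, ha, hp⟩ := hp
    let q : Fin N → ℕ := fun i => if h : m ≤ (i : ℕ) ∧ (i : ℕ) < m + c then
      a (e.symm ⟨i - m, by omega⟩) else p i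
    have hq : Bdd w q := by
      intro i
      simp only [q]
      split_ifs
      · exact ha _
      · exact hb _
    have h5 : (Sum.elim (fun i => p (x i)) a) =
        fun i => q (Sum.elim x (fun k => regs m c hNc (e k)) i) := by
      funext i
      rcases i with i | k
      · simp only [Sum.elim_inl, q]
        rw [dif_neg]
        have := hx i
        omega
      · simp only [Sum.elim_inr, q, regs]
        rw [dif_pos (by omega)]
        congr 1
        have : (⟨m + (e k : ℕ) - m, by omega⟩ : Fin c) = e k := by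
          apply Fin.ext; simp
        rw [this, Equiv.symm_apply_apply]
    rw [h5] at hp
    obtain ⟨p', h⟩ := a2 w q hq hp
    refine ⟨p', q, ?_, h⟩
    refine ⟨q, ⟨fun i hi => ?_, hq⟩, rfl⟩
    simp only [q]
    rw [dif_neg]
    rintro ⟨h6, h7⟩
    apply hi
    simp only [List.mem_map, List.mem_finRange, true_and]
    exact ⟨⟨i - m, by omega⟩, Fin.ext (by simp only [regs]; omega)⟩

/-- successor of a position -/
theorem IsNL.succ (i j : ι) : IsNL (fun (_ : List α) v => v j = v i + 1) := by
  intro m
  refine ⟨m + 1, fun N hN x hx => ⟨_, Impl.prims [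
      .cp [((⟨m, by omega⟩ : Fin N), x i)],
      .mv (fun s => match s (x i) with | Sym.right => False | _ => True)
        (fun r => if r = (⟨m, by omega⟩ : Fin N) then Dir.R else Dir.S),
      .eq [((⟨m, by omega⟩ : Fin N), x j)]],
    fun w p p' hb hr => ?_, fun w p hb hp => ?_⟩⟩
  · simp only [runPrims, Prim.sem, runCopies, List.foldl_cons, List.foldl_nil] at hr
    obtain ⟨p1, rfl, p2, ⟨h1, rfl⟩, p3, ⟨h2, rfl⟩, rfl⟩ := hr
    have hxi : x i ≠ (⟨m, by omega⟩ : Fin N) := by
      intro h; have := hx i; rw [h] at this; simp at this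
    have hxj : x j ≠ (⟨m, by omega⟩ : Fin N) := by
      intro h; have := hx j; rw [h] at this; simp at this
    have h3 := h2 _ (List.mem_singleton.2 rfl)
    simp only [if_true, Function.update_self, hxj, if_false, Dir.move,
      Function.update_of_ne hxj] at h3
    rw [Function.update_of_ne hxi] at h1
    have h4 : p (x i) ≤ w.length := by
      by_contra hc
      have h5 : p (x i) = w.length + 1 := by have := hb (x i); omega
      rw [h5] at h1
      simp [symAt] at h1
    refine ⟨?_, ?_, ?_⟩
    · intro r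
      simp only
      by_cases hr : r = (⟨m, by omega⟩ : Fin N)
      · simp only [hr, if_true, Dir.move]; omega
      · simp only [hr, if_false, Dir.move, Function.update_of_ne hr]; exact hb r
    · intro r hr
      have : r ≠ (⟨m, by omega⟩ : Fin N) := by
        intro h; rw [h] at hr; simp at hr
      simp only [this, if_false, Dir.move, Function.update_of_ne this]
    · change p (x j) = p (x i) + 1
      have h5 : min (p (x i) + 1) (w.length + 1) = p (x j) := h3
      omega
  · replace hp : p (x j) = p (x i) + 1 := hp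
    have hxi : x i ≠ (⟨m, by omega⟩ : Fin N) := by
      intro h; have := hx i; rw [h] at this; simp at this
    have hxj : x j ≠ (⟨m, by omega⟩ : Fin N) := by
      intro h; have := hx j; rw [h] at this; simp at this
    have hle : p (x i) ≤ w.length := by
      have := hb (x j); omega
    simp only [runPrims, Prim.sem, runCopies, List.foldl_cons, List.foldl_nil]
    refine ⟨_, _, rfl, _, ⟨?_, rfl⟩, _, ⟨?_, rfl⟩, rfl⟩
    · rw [Function.update_of_ne hxi]
      cases hc : p (x i) with
      | zero => simp [symAt]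
      | succ n =>
        have : n < w.length := by omega
        simp [symAt, List.getElem?_eq_getElem this]
    · intro y hy
      simp only [List.mem_singleton] at hy
      subst hy
      simp only [if_true, Function.update_self, hxj, if_false, Dir.move,
        Function.update_of_ne hxj]
      rw [hp]
      omega

theorem symAt_left {w : List α} {p : ℕ} : symAt w p = Sym.left ↔ p = 0 := by
  cases p with
  | zero => simp [symAt]
  | succ n =>
    simp only [symAt, Nat.add_eq_zero_iff, one_ne_zero, and_false, iff_false]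
    cases w[n]? <;> simp

theorem symAt_right {w : List α} {p : ℕ} : symAt w p = Sym.right ↔ w.length + 1 ≤ p := by
  cases p with
  | zero => simp [symAt]
  | succ n =>
    simp only [symAt]
    cases h : w[n]? with
    | none => rw [List.getElem?_eq_none_iff] at h; simp; omega
    | some a =>
      have := (List.getElem?_eq_some_iff.1 h).1
      simp; omega

theorem IsNL.zero (i : ι) : IsNL (fun (_ : List α) v => v i = 0) :=
  (IsNL.atom (fun s => s i = Sym.left)).congr (fun _ _ _ => symAt_left)

theorem IsNL.top (i : ι) : IsNL (fun (w : List α) v => v i = w.length + 1) :=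
  (IsNL.atom (fun s => s i = Sym.right)).congr (fun w v hv => by
    rw [symAt_right]
    have := hv i
    omega)

end Pool.Agent.V8H47.NLK
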