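import Pool.Agent.V8H47.NLK.VkNL
import Pool.Agent.V8H47.NLK.RichOf

/-!
# Rational images of `D ∩ R` for languages `R` that are not rich
-/

namespace Pool.Agent.V8H47.NLK

open Relation Pool.Agent.V8H47.MH

/-! ### Bounded runs of families of pushdown systems on positions -/

section bounded

variable {α C S : Type} {P : List α → TPS (C × ℕ) S}

/-- the system restricted to positions -/
def restr (P : List α → TPS (C × ℕ) S) (w : List α) : TPS (C × Fin (w.length + 2)) S where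
  N x y := (P w).N (x.1, x.2) (y.1, y.2)
  U s x y := (P w).U s (x.1, x.2) (y.1, y.2)
  O s x y := (P w).O s (x.1, x.2) (y.1, y.2)

theorem restr_bal (w : List α) : ∀ (h : ℕ) (x y : C × Fin (w.length + 2)),
    (restr P w).Bal h x y → (P w).Bal h (x.1, (x.2 : ℕ)) (y.1, (y.2 : ℕ)) := by
  intro h
  induction h with
  | zero =>
    intro x y hb
    induction hb with
    | refl => exact .refl
    | tail _ hs ih => exact ReflTransGen.tail ih hs
  | succ h ih =>
    intro x y hb
    induction hb with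
    | refl => exact .refl
    | tail _ hs ih2 =>
      refine ReflTransGen.tail ih2 ?_
      rcases hs with hs | ⟨s, u, v, h1, h2, h3⟩
      · exact Or.inl hs
      · exact Or.inr ⟨s, _, _, h1, ih _ _ h2, h3⟩

theorem restr_run (hP : NLSys P) (w : List α) (x : C × Fin (w.length + 2)) (st : List S)
    (c : (C × ℕ) × List S) (h : ReflTransGen (P w).Step ((x.1, (x.2 : ℕ)), st) c) :
    ∃ hc : c.1.2 < w.length + 2,
      ReflTransGen (restr P w).Step (x, st) ((c.1.1, ⟨c.1.2, hc⟩), c.2) := by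
  induction h with
  | refl => exact ⟨x.2.2, .refl⟩
  | @tail b c _ hs ih =>
    obtain ⟨hb, ih⟩ := ih
    have hc := hP.step_bdd hs
    refine ⟨by omega, ih.tail ?_⟩
    rcases hs with ⟨h1, h2⟩ | ⟨s, h1, h2⟩ | ⟨s, h1, h2⟩
    · exact Or.inl ⟨h1, h2⟩
    · exact Or.inr (Or.inl ⟨s, h1, h2⟩)
    · exact Or.inr (Or.inr ⟨s, h1, h2⟩)

/-- Runs from the empty to the empty store have polynomial height. -/
theorem exists_small_bal [Finite C] (hP : NLSys P) : ∃ d, ∀ (w : List α) (x y : C × ℕ),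
    x.2 ≤ w.length + 1 → ReflTransGen (P w).Step (x, []) (y, []) →
      ∃ h, h < (w.length + 2) ^ d ∧ (P w).Bal h x y := by
  refine ⟨Nat.card C * Nat.card C + 2 + 1, fun w x y hx h => ?_⟩
  obtain ⟨hy, h1⟩ := restr_run hP w (x.1, ⟨x.2, by omega⟩) [] (y, []) h
  obtain ⟨h', h2⟩ := (restr P w).exists_bal h1
  have h3 := (restr P w).bal_stable h2
  refine ⟨_, ?_, restr_bal w _ _ _ h3⟩
  set n := w.length
  have e : Nat.card ((C × Fin (n + 2)) × (C × Fin (n + 2))) =
      (Nat.card C * Nat.card C) * ((n + 2) * (n + 2)) := by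
    simp only [Nat.card_prod, Nat.card_eq_fintype_card, Fintype.card_fin]
    ring
  rw [e]
  have h4 : Nat.card C * Nat.card C < (n + 2) ^ (Nat.card C * Nat.card C) :=
    Nat.lt_pow_self (by omega)
  calc (Nat.card C * Nat.card C) * ((n + 2) * (n + 2))
      < (n + 2) ^ (Nat.card C * Nat.card C) * ((n + 2) * (n + 2)) :=
        Nat.mul_lt_mul_of_pos_right h4 (by positivity)
    _ = (n + 2) ^ (Nat.card C * Nat.card C + 2) := by ring
    _ ≤ (n + 2) ^ (Nat.card C * Nat.card C + 2 + 1) :=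
        Nat.pow_le_pow_right (by omega) (by omega)

end bounded

/-! ### The system of a rational transduction -/

section trans

variable {α Z S σ Q : Type} [DecidableEq S] (A : DFA Z σ) (B : DFA (S × Bool) Q)
  (φ : Z → List (S × Bool)) (ψ : Z → List α)

/-- the suffixes of the words `f z` -/
def Suf {Z X : Type} (f : Z → List X) : Type := {l : List X // l = [] ∨ ∃ z, l <:+ f z}

theorem finite_suf {Z X : Type} [Finite Z] (f : Z → List X) : Finite (Suf f) := by
  have : {l : List X | l = [] ∨ ∃ z, l <:+ f z} ⊆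
      insert [] (⋃ z, {l | l ∈ (f z).tails}) := by
    rintro l (rfl | ⟨z, hz⟩)
    · exact Set.mem_insert _ _
    · exact Set.mem_insert_of_mem _ (Set.mem_iUnion.2 ⟨z, (List.mem_tails _ _).2 hz⟩)
  have h2 : (insert [] (⋃ z, {l | l ∈ (f z).tails}) : Set (List X)).Finite := by
    refine Set.Finite.insert _ (Set.finite_iUnion (fun z => ?_))
    exact List.finite_toSet _
  exact (h2.subset this).to_subtype

/-- control states -/
abbrev Ctl (A : DFA Z σ) (B : DFA (S × Bool) Q) (φ : Z → List (S × Bool)) (ψ : Z → List α) :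
    Type := σ × Suf φ × Suf ψ × Q

def sufNil {Z X : Type} (f : Z → List X) : Suf f := ⟨[], Or.inl rfl⟩

def sufAll {Z X : Type} (f : Z → List X) (z : Z) : Suf f := ⟨f z, Or.inr ⟨z, List.suffix_rfl⟩⟩

/-- the steps of the transducer, combined with the automaton for `R` -/
def sys (w : List α) : TPS (Ctl A B φ ψ × ℕ) S where
  N x y := (∃ z, x.1.2.1.1 = [] ∧ x.1.2.2.1.1 = [] ∧
      y.1 = (A.step x.1.1 z, sufAll φ z, sufAll ψ z, x.1.2.2.2) ∧ y.2 = x.2 ∧
        y.2 ≤ w.length) ∨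
    (∃ a, x.1.2.1.1 = [] ∧ x.1.2.2.1.1 = a :: y.1.2.2.1.1 ∧ y.1.1 = x.1.1 ∧ y.1.2.1 = x.1.2.1 ∧
      y.1.2.2.2 = x.1.2.2.2 ∧ w[x.2]? = some a ∧ y.2 = x.2 + 1)
  U s x y := x.1.2.1.1 = (s, true) :: y.1.2.1.1 ∧ y.1.1 = x.1.1 ∧ y.1.2.2.1 = x.1.2.2.1 ∧
    y.1.2.2.2 = B.step x.1.2.2.2 (s, true) ∧ y.2 = x.2 ∧ y.2 ≤ w.length
  O s x y := x.1.2.1.1 = (s, false) :: y.1.2.1.1 ∧ y.1.1 = x.1.1 ∧ y.1.2.2.1 = x.1.2.2.1 ∧
    y.1.2.2.2 = B.step x.1.2.2.2 (s, false) ∧ y.2 = x.2 ∧ y.2 ≤ w.length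

theorem sys_follows (w : List α) :
    Follows (sys A B φ ψ w) (fun x => x.1.2.2.2) B.step where
  N := by
    rintro x y (⟨z, _, _, h, _⟩ | ⟨a, _, _, _, _, h, _⟩)
    · simp only [h]
    · exact h
  U := fun s x y h => h.2.2.2.1
  O := fun s x y h => h.2.2.2.1

theorem isNL_le {ι : Type} (i j : ι) (c : Prop) :
    IsNL (fun (w : List α) (v : ι → ℕ) => c ∧ v j = v i ∧ v j ≤ w.length) := by
  refine ((IsNL.const c).and ((IsNL.eq j i).and (IsNL.atom (fun s => s j ≠ Sym.right)))).congr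
    (fun w v hv => ?_)
  refine and_congr Iff.rfl (and_congr Iff.rfl ?_)
  rw [Ne, symAt_right]
  omega

theorem sys_nl [Finite Z] : NLSys (sys A B φ ψ) where
  N := by
    intro c c'
    refine IsNL.or ?_ ?_
    · refine (IsNL.iExists (fun z => isNL_le false true (c.2.1.1 = [] ∧ c.2.2.1.1 = [] ∧
        c' = (A.step c.1 z, sufAll φ z, sufAll ψ z, c.2.2.2)))).congr (fun w v _ => ?_)
      simp only [and_assoc]
    · cases hl : c.2.2.1.1 with
      | nil =>
        refine (IsNL.const False).congr (fun w v _ => ?_)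
        simp [hl]
      | cons a l =>
        refine ((IsNL.const (c.2.1.1 = [] ∧ l = c'.2.2.1.1 ∧ c'.1 = c.1 ∧ c'.2.1 = c.2.1 ∧
          c'.2.2.2 = c.2.2.2)).and ((IsNL.atom (fun s => s true = Sym.letter a)).and
          (IsNL.succ false true))).congr (fun w v _ => ?_)
        simp only [hl, List.cons.injEq]
        constructor
        · rintro ⟨⟨h1, h2, h3, h4, h5⟩, h6, h7⟩
          refine ⟨a, h1, ⟨rfl, h2⟩, h3, h4, h5, ?_, h7⟩
          rw [h7] at h6
          simp only [symAt] at h6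
          cases h8 : w[v false]? with
          | none => rw [h8] at h6; simp at h6
          | some b => rw [h8] at h6; simp only [Sym.letter.injEq] at h6; rw [h6]
        · rintro ⟨b, h1, ⟨rfl, h2⟩, h3, h4, h5, h6, h7⟩
          refine ⟨⟨h1, h2, h3, h4, h5⟩, ?_, h7⟩
          rw [h7]
          simp only [symAt, h6]
  U := by
    intro s c c'
    refine (isNL_le false true (c.2.1.1 = (s, true) :: c'.2.1.1 ∧ c'.1 = c.1 ∧
      c'.2.2.1 = c.2.2.1 ∧ c'.2.2.2 = B.step c.2.2.2 (s, true))).congr (fun w v _ => ?_)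
    simp only [sys, and_assoc]
  O := by
    intro s c c'
    refine (isNL_le false true (c.2.1.1 = (s, false) :: c'.2.1.1 ∧ c'.1 = c.1 ∧
      c'.2.2.1 = c.2.2.1 ∧ c'.2.2.2 = B.step c.2.2.2 (s, false))).congr (fun w v _ => ?_)
    simp only [sys, and_assoc]
  bN := by
    rintro w x y (⟨z, _, _, _, _, h⟩ | ⟨a, _, _, _, _, _, h1, h2⟩)
    · omega
    · have := (List.getElem?_eq_some_iff.1 h1).1
      omega
  bU := fun w s x y h => by have := h.2.2.2.2.2; omega
  bO := fun w s x y h => by have := h.2.2.2.2.2; omega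
  bO' := fun w s x y h => by have h1 := h.2.2.2.2.2; have h2 := h.2.2.2.2.1; omega

variable {A B φ ψ}

/-- what remains to be done from a configuration -/
def Rem (w : List α) (F : Set σ) (G : Q → Prop) (c : (Ctl A B φ ψ × ℕ) × List S) : Prop :=
  ∃ h : List Z, A.evalFrom c.1.1.1 h ∈ F ∧ c.1.2 ≤ w.length ∧
    w.drop c.1.2 = c.1.1.2.2.1.1 ++ h.flatMap ψ ∧
    runS (c.1.1.2.1.1 ++ h.flatMap φ) c.2 = some [] ∧
    G (B.evalFrom c.1.1.2.2.2 (c.1.1.2.1.1 ++ h.flatMap φ))

theorem rem_step {w : List α} {F : Set σ} {G : Q → Prop} {c c' : (Ctl A B φ ψ × ℕ) × List S}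
    (hs : (sys A B φ ψ w).Step c c') (h : Rem w F G c') : Rem w F G c := by
  obtain ⟨⟨⟨κ, l1, l2, q⟩, i⟩, st⟩ := c
  obtain ⟨⟨⟨κ', l1', l2', q'⟩, i'⟩, st'⟩ := c'
  obtain ⟨h, h1, h2, h3, h4, h5⟩ := h
  simp only at h1 h2 h3 h4 h5
  rcases hs with ⟨hN, hst⟩ | ⟨s, hU, hst⟩ | ⟨s, hO, hst⟩
  · simp only at hst
    subst hst
    rcases hN with ⟨z, g1, g2, g3, g4, g5⟩ | ⟨a, g1, g2, g3, g4, g5, g6, g7⟩
    · simp only [Prod.mk.injEq] at g1 g2 g3 g4 g5
      obtain ⟨rfl, rfl, rfl, rfl⟩ := g3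
      subst g4
      refine ⟨z :: h, ?_, g5, ?_, ?_, ?_⟩
      · simpa [DFA.evalFrom] using h1
      · simp only [g2, List.nil_append, List.flatMap_cons]; exact h3
      · simp only [g1, List.nil_append, List.flatMap_cons]; exact h4
      · simp only [g1, List.nil_append, List.flatMap_cons]; exact h5
    · simp only at g1 g2 g3 g4 g5 g6 g7
      subst g3 g4 g5 g7
      obtain ⟨hlt, hget⟩ := List.getElem?_eq_some_iff.1 g6
      refine ⟨h, h1, by simp only; omega, ?_, h4, h5⟩
      simp only [g2, List.cons_append]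
      rw [← h3, ← hget]
      exact List.drop_eq_getElem_cons hlt
  · obtain ⟨g1, g2, g3, g4, g5, g6⟩ := hU
    simp only at g1 g2 g3 g4 g5 g6 hst
    subst g2 g3 g4 g5 hst
    refine ⟨h, h1, g6, h3, ?_, ?_⟩
    · simp only [g1, List.cons_append, runS]; exact h4
    · simp only [g1, List.cons_append]; exact h5
  · obtain ⟨g1, g2, g3, g4, g5, g6⟩ := hO
    simp only at g1 g2 g3 g4 g5 g6 hst
    subst g2 g3 g4 g5 hst
    refine ⟨h, h1, g6, h3, ?_, ?_⟩
    · simp only [g1, List.cons_append, runS, if_true]; exact h4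
    · simp only [g1, List.cons_append]; exact h5

theorem rem_steps {w : List α} {F : Set σ} {G : Q → Prop} {c c' : (Ctl A B φ ψ × ℕ) × List S}
    (hs : ReflTransGen (sys A B φ ψ w).Step c c') (h : Rem w F G c') : Rem w F G c := by
  induction hs using ReflTransGen.head_induction_on with
  | refl => exact h
  | head hs _ ih => exact rem_step hs ih

/-- executing the pending actions -/
theorem run_actions {w : List α} (κ : σ) (l2 : Suf ψ) {i : ℕ} (hi : i ≤ w.length) :
    ∀ (l : List (S × Bool)) (hl : l = [] ∨ ∃ z, l <:+ φ z) (q : Q) (st st' : List S),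
      runS l st = some st' → ReflTransGen (sys A B φ ψ w).Step (((κ, ⟨l, hl⟩, l2, q), i), st)
        (((κ, sufNil φ, l2, B.evalFrom q l), i), st') := by
  intro l
  induction l with
  | nil =>
    intro hl q st st' h
    simp only [runS, Option.some.injEq] at h
    subst h
    exact .refl
  | cons a l ih =>
    intro hl q st st' h
    have hl' : l = [] ∨ ∃ z, l <:+ φ z := by
      rcases hl with h | ⟨z, hz⟩
      · simp at h
      · exact Or.inr ⟨z, (List.suffix_cons a l).trans hz⟩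
    obtain ⟨s, b⟩ := a
    cases b with
    | true =>
      simp only [runS] at h
      refine ReflTransGen.head (b := (((κ, ⟨l, hl'⟩, l2, B.step q (s, true)), i), s :: st)) ?_
        (ih hl' _ _ _ h)
      exact Or.inr (Or.inl ⟨s, ⟨rfl, rfl, rfl, rfl, rfl, hi⟩, rfl⟩)
    | false =>
      cases st with
      | nil => simp [runS] at h
      | cons t st =>
        simp only [runS] at h
        split_ifs at h with hst
        subst hst
        refine ReflTransGen.head (b := (((κ, ⟨l, hl'⟩, l2, B.step q (s, false)), i), st)) ?_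
          (ih hl' _ _ _ h)
        exact Or.inr (Or.inr ⟨s, ⟨rfl, rfl, rfl, rfl, rfl, hi⟩, rfl⟩)

/-- reading the pending letters -/
theorem run_letters {w : List α} (κ : σ) (q : Q) (st : List S) :
    ∀ (l : List α) (hl : l = [] ∨ ∃ z, l <:+ ψ z) (i : ℕ) (r : List α), i ≤ w.length →
      w.drop i = l ++ r → ReflTransGen (sys A B φ ψ w).Step
        (((κ, sufNil φ, ⟨l, hl⟩, q), i), st)
        (((κ, sufNil φ, sufNil ψ, q), i + l.length), st) := by
  intro l
  induction l with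
  | nil => intro hl i r _ _; exact .refl
  | cons a l ih =>
    intro hl i r hi h
    have hl' : l = [] ∨ ∃ z, l <:+ ψ z := by
      rcases hl with h | ⟨z, hz⟩
      · simp at h
      · exact Or.inr ⟨z, (List.suffix_cons a l).trans hz⟩
    have hlt : i < w.length := by
      by_contra hc
      rw [List.drop_eq_nil_of_le (by omega)] at h
      simp at h
    rw [List.drop_eq_getElem_cons hlt, List.cons_append, List.cons.injEq] at h
    have h2 := ih hl' (i + 1) r (by omega) h.2
    have e : i + 1 + l.length = i + (a :: l).length := by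
      simp only [List.length_cons]; omega
    rw [e] at h2
    refine ReflTransGen.head (b := (((κ, sufNil φ, ⟨l, hl'⟩, q), i + 1), st)) ?_ h2
    refine Or.inl ⟨Or.inr ⟨a, rfl, rfl, rfl, rfl, rfl, ?_, rfl⟩, rfl⟩
    simp only
    rw [List.getElem?_eq_getElem hlt, h.1]

/-- processing the word `h` -/
theorem run_word {w : List α} : ∀ (h : List Z) (κ : σ) (q : Q) (i : ℕ) (st st' : List S),
    i ≤ w.length → w.drop i = h.flatMap ψ → runS (h.flatMap φ) st = some st' →
      ReflTransGen (sys A B φ ψ w).Step (((κ, sufNil φ, sufNil ψ, q), i), st)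
        (((A.evalFrom κ h, sufNil φ, sufNil ψ, B.evalFrom q (h.flatMap φ)), w.length), st') := by
  intro h
  induction h with
  | nil =>
    intro κ q i st st' hi hd hr
    simp only [List.flatMap_nil, List.drop_eq_nil_iff] at hd
    have : i = w.length := by omega
    subst this
    simp only [List.flatMap_nil, runS, Option.some.injEq] at hr
    subst hr
    exact .refl
  | cons z h ih =>
    intro κ q i st st' hi hd hr
    simp only [List.flatMap_cons] at hd hr
    rw [runS_append] at hr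
    cases h1 : runS (φ z) st with
    | none => rw [h1] at hr; simp at hr
    | some st1 =>
      rw [h1] at hr
      simp only [Option.bind_some] at hr
      have hlen := congrArg List.length hd
      simp only [List.length_drop, List.length_append] at hlen
      have hd2 : w.drop (i + (ψ z).length) = h.flatMap ψ := by
        rw [← List.drop_drop, hd, List.drop_left]
      have e1 : ReflTransGen (sys A B φ ψ w).Step (((κ, sufNil φ, sufNil ψ, q), i), st)
          (((A.step κ z, sufAll φ z, sufAll ψ z, q), i), st) :=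
        ReflTransGen.single (Or.inl ⟨Or.inl ⟨z, rfl, rfl, rfl, rfl, hi⟩, rfl⟩)
      have e2 := run_actions (A := A) (B := B) (φ := φ) (ψ := ψ) (A.step κ z) (sufAll ψ z) hi
        (φ z) (Or.inr ⟨z, List.suffix_rfl⟩) q st st1 h1
      have e3 := run_letters (A := A) (B := B) (φ := φ) (ψ := ψ) (w := w) (A.step κ z)
        (B.evalFrom q (φ z)) st1 (ψ z) (Or.inr ⟨z, List.suffix_rfl⟩) i (h.flatMap ψ) hi hd
      have e4 := ih (A.step κ z) (B.evalFrom q (φ z)) (i + (ψ z).length) st1 st' (by omega)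
        hd2 hr
      have e5 := ((e1.trans e2).trans e3).trans e4
      have e6 : B.evalFrom q (List.flatMap φ (z :: h)) =
          B.evalFrom (B.evalFrom q (φ z)) (h.flatMap φ) := by
        rw [List.flatMap_cons, DFA.evalFrom_of_append]
      rw [e6]
      exact e5

/-- the start state and the final states -/
def c0 : Ctl A B φ ψ := (A.start, sufNil φ, sufNil ψ, B.start)

theorem lang_sys (w : List α) :
    (∃ h ∈ A.accepts, h.flatMap φ ∈ dyck S ⊓ B.accepts ∧ h.flatMap ψ = w) ↔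
    ∃ κ ∈ A.accept, ∃ q ∈ B.accept, ReflTransGen (sys A B φ ψ w).Step ((c0, 0), [])
      (((κ, sufNil φ, sufNil ψ, q), w.length), []) := by
  constructor
  · rintro ⟨h, h1, ⟨h2, h3⟩, h4⟩
    exact ⟨_, h1, _, h3, run_word h A.start B.start 0 [] [] (Nat.zero_le _)
      (by rw [List.drop_zero, h4]) h2⟩
  · rintro ⟨κ, hκ, q, hq, h⟩
    have h1 : Rem w A.accept (fun q => q ∈ B.accept)
        ((((κ, sufNil φ, sufNil ψ, q), w.length), []) : (Ctl A B φ ψ × ℕ) × List S) := by
      refine ⟨[], hκ, le_rfl, ?_, rfl, hq⟩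
      simp [sufNil]
    obtain ⟨h', g1, g2, g3, g4, g5⟩ := rem_steps h h1
    simp only [c0, sufNil, List.nil_append, List.drop_zero] at g1 g3 g4 g5
    exact ⟨h', g1, ⟨g4, g5⟩, g3.symm⟩

end trans

/-- **Rational images of `D ∩ R` are verified by multihead finite automata if `R` is not
rich.** -/
theorem nl_side {S : Type} [Finite S] [DecidableEq S] {R : Language (S × Bool)}
    (hR : R.IsRegular) (hn : ¬ Rich R) {α : Type} {L : Language α}
    (hL : RatImage (dyck S ⊓ R) L) : ∃ k, L ∈ twoNFA k α := by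
  obtain ⟨Z, _, K, φ, ψ, hK, rfl⟩ := hL
  obtain ⟨σ, _, A, rfl⟩ := hK
  obtain ⟨Q, _, B, rfl⟩ := hR
  have : Finite (Suf φ) := finite_suf φ
  have : Finite (Suf ψ) := finite_suf ψ
  have hP := sys_nl A B φ ψ
  -- the labels
  have hf : ∀ τ : Q × Q, ∃ f : ℕ → Option S, (∃ p, 0 < p ∧ ∀ m, f m = f (m % p)) ∧
      ((∃ qf ∈ B.accept, τ ∈ below B.step (B.start, qf)) → Brn B.step τ →
        ∀ τ', Mut B.step τ τ' → ∀ u, Pth B.step τ u τ' → ∀ (i : ℕ) (hi : i < u.length),
        f i = some u[i]) := by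
    intro τ
    by_cases h : (∃ qf ∈ B.accept, τ ∈ below B.step (B.start, qf)) ∧ Brn B.step τ
    · obtain ⟨⟨qf, h1, h2⟩, h3⟩ := h
      obtain ⟨f, h4, h5⟩ := exists_f (δ := B.step) (τ := τ) (by
        intro u v hu hv hl
        by_contra hne
        exact hn (rich_of B rfl h1 h2 h3 hu hv hl hne))
      exact ⟨f, h4, fun _ _ => h5⟩
    · exact ⟨fun _ => none, ⟨1, one_pos, fun _ => rfl⟩, fun h1 h2 => absurd ⟨h1, h2⟩ h⟩
  choose g hg1 hg2 using hf
  obtain ⟨d, hd⟩ := exists_small_bal hP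
  obtain ⟨K, hK⟩ : ∃ K, ∀ τ : Q × Q, rk B.step τ ≤ K := by
    have := Set.finite_range (rk B.step)
    obtain ⟨K, hK⟩ := this.bddAbove
    exact ⟨K, fun t => hK ⟨t, rfl⟩⟩
  have hV := (Vk_NL2 hP d g hg1 K).1
  have key : IsNL (fun w (_ : Empty → ℕ) => ∃ κq : σ × Q, ∃ a : Fin 3 → ℕ,
      (∀ i, a i ≤ w.length + 1) ∧ ((κq.1 ∈ A.accept ∧ κq.2 ∈ B.accept) ∧ a 0 = 0 ∧
        a 2 = w.length + 1 ∧ a 2 = a 1 + 1 ∧
        (sys A B φ ψ w).Vk ((w.length + 2) ^ d) g K (c0, a 0)
          ((κq.1, sufNil φ, sufNil ψ, κq.2), a 1))) := by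
    refine IsNL.iExists (fun κq => ?_)
    have h1 : IsNL (fun w (v : Empty ⊕ Fin 3 → ℕ) => ((κq.1 ∈ A.accept ∧ κq.2 ∈ B.accept) ∧
        v (.inr 0) = 0 ∧ v (.inr 2) = w.length + 1 ∧ v (.inr 2) = v (.inr 1) + 1 ∧
        (sys A B φ ψ w).Vk ((w.length + 2) ^ d) g K (c0, v (.inr 0))
          ((κq.1, sufNil φ, sufNil ψ, κq.2), v (.inr 1)))) :=
      (IsNL.const _).and ((IsNL.zero _).and ((IsNL.top _).and ((IsNL.succ _ _).and
        (hV.at _ _ _ _))))
    exact (IsNL.ex h1).congr (fun w v _ => by simp only [Sum.elim_inr])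
  obtain ⟨k, hk⟩ := key.twoNFA
  refine ⟨k, ?_⟩
  have hset : ({v | ∃ h ∈ A.accepts, h.flatMap φ ∈ dyck S ⊓ B.accepts ∧ h.flatMap ψ = v} :
      Set (List α)) = {w | ∃ κq : σ × Q, ∃ a : Fin 3 → ℕ,
      (∀ i, a i ≤ w.length + 1) ∧ ((κq.1 ∈ A.accept ∧ κq.2 ∈ B.accept) ∧ a 0 = 0 ∧
        a 2 = w.length + 1 ∧ a 2 = a 1 + 1 ∧
        (sys A B φ ψ w).Vk ((w.length + 2) ^ d) g K (c0, a 0)
          ((κq.1, sufNil φ, sufNil ψ, κq.2), a 1))} := ?_
  · exact (congrArg (fun L : Language α => L ∈ twoNFA k α) hset).mpr hk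
  ext w
  change (∃ h ∈ A.accepts, h.flatMap φ ∈ dyck S ⊓ B.accepts ∧ h.flatMap ψ = w) ↔ _
  rw [lang_sys]
  constructor
  · rintro ⟨κ, hκ, q, hq, h⟩
    obtain ⟨h', h1, h2⟩ := hd w _ _ (Nat.zero_le _) h
    refine ⟨(κ, q), fun i => if i = 0 then 0 else if i = 1 then w.length else w.length + 1,
      ?_, ⟨hκ, hq⟩, rfl, rfl, rfl, ?_⟩
    · intro i
      simp only
      split_ifs <;> omega
    · have := vk_complete (sys_follows A B φ ψ w) (B.start, q) ((w.length + 2) ^ d) g
        (fun τ hτ hb => hg2 τ ⟨q, hq, hτ⟩ hb) K (B.start, q) (mem_below_self _) (hK _) h' _ _ h2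
        rfl h1
      exact this
  · rintro ⟨⟨κ, q⟩, a, ha, ⟨hκ, hq⟩, h0, h2, h1, hV⟩
    have h3 : a 1 = w.length := by omega
    rw [h0, h3] at hV
    exact ⟨κ, hκ, q, hq, (sys A B φ ψ w).vk_sound K _ _ hV []⟩

end Pool.Agent.V8H47.NLK
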