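import Pool.Agent.V8H47.NLK.IsNL

/-!
# Transitive closures of relations on positions
-/

namespace Pool.Agent.V8H47.NLK

open Relation Pool.Agent.V8H47.MH

variable {α ι κ T : Type}

section copies

variable {R J : Type} [DecidableEq R]

theorem runCopies_of_notMem (dst src : J → R) : ∀ (L : List J) (p : R → ℕ) (r : R),
    (∀ j ∈ L, dst j ≠ r) → runCopies (L.map (fun j => (dst j, src j))) p r = p r := by
  intro L
  induction L with
  | nil => intro p r _; rfl
  | cons i L ih =>
    intro p r h
    have e : runCopies ((i :: L).map (fun j => (dst j, src j))) p r =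
      runCopies (L.map (fun j => (dst j, src j))) (Function.update p (dst i) (p (src i))) r := rfl
    rw [e, ih _ _ (fun j hj => h j (List.mem_cons_of_mem _ hj)), Function.update_of_ne]
    exact (h i (List.mem_cons_self)).symm

theorem runCopies_of_mem (dst src : J → R) (hinj : Function.Injective dst)
    (hne : ∀ i j, dst i ≠ src j) : ∀ (L : List J) (p : R → ℕ) (j : J), j ∈ L →
      runCopies (L.map (fun j => (dst j, src j))) p (dst j) = p (src j) := by
  intro L
  induction L with
  | nil => intro p j h; simp at h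
  | cons i L ih =>
    intro p j h
    have e : runCopies ((i :: L).map (fun j => (dst j, src j))) p (dst j) =
      runCopies (L.map (fun j => (dst j, src j))) (Function.update p (dst i) (p (src i)))
        (dst j) := rfl
    rw [e]
    by_cases hj : j ∈ L
    · rw [ih _ _ hj, Function.update_of_ne (hne i j).symm]
    · have hij : j = i := by
        rcases List.mem_cons.1 h with h | h
        · exact h
        · exact absurd h hj
      subst hij
      rw [runCopies_of_notMem, Function.update_self]
      intro k hk he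
      exact hj (hinj he ▸ hk)

theorem run_gs (w : List α) (L : List R) (p q : R → ℕ) :
    runPrims w [.gs L] p q ↔ (∀ r, r ∉ L → q r = p r) ∧ Bdd w q := by
  constructor
  · rintro ⟨q', h, rfl⟩; exact h
  · intro h; exact ⟨q, h, rfl⟩

theorem run_cp (w : List α) (L : List (R × R)) (p q : R → ℕ) :
    runPrims w [.cp L] p q ↔ q = runCopies L p := by
  constructor
  · rintro ⟨q', h, rfl⟩; exact h
  · intro h; exact ⟨q, h, rfl⟩

theorem run_eq (w : List α) (L : List (R × R)) (p q : R → ℕ) :
    runPrims w [.eq L] p q ↔ (∀ x ∈ L, p x.1 = p x.2) ∧ q = p := by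
  constructor
  · rintro ⟨q', h, rfl⟩; exact h
  · intro h; exact ⟨q, h, rfl⟩

end copies

/-- the steps between finite states and tuples of positions given by a relation -/
def GStep (P : T → T → List α → (ι ⊕ (κ ⊕ κ) → ℕ) → Prop) (w : List α) (v : ι → ℕ)
    (c c' : T × (κ → ℕ)) : Prop :=
  (∀ k, c'.2 k ≤ w.length + 1) ∧ P c.1 c'.1 w (Sum.elim v (Sum.elim c.2 c'.2))

theorem gsteps_bdd {P : T → T → List α → (ι ⊕ (κ ⊕ κ) → ℕ) → Prop} {w : List α} {v : ι → ℕ}
    {c c' : T × (κ → ℕ)} (h : ReflTransGen (GStep P w v) c c')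
    (hc : ∀ k, c.2 k ≤ w.length + 1) : ∀ k, c'.2 k ≤ w.length + 1 := by
  induction h with
  | refl => exact hc
  | tail _ hs _ => exact hs.1

/-- **Transitive closure.** -/
theorem IsNL.tc [Finite T] [Finite κ] {P : T → T → List α → (ι ⊕ (κ ⊕ κ) → ℕ) → Prop}
    (hP : ∀ t t', IsNL (P t t')) (a b : T) :
    IsNL (fun w (v : ι ⊕ (κ ⊕ κ) → ℕ) => ReflTransGen (GStep P w (fun i => v (Sum.inl i)))
      (a, fun k => v (Sum.inr (Sum.inl k))) (b, fun k => v (Sum.inr (Sum.inr k)))) := by
  intro m
  obtain ⟨c, ⟨e⟩⟩ := Finite.exists_equiv_fin κ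
  choose N0 h0 using fun t : T × T => hP t.1 t.2 (m + c + c)
  obtain ⟨K, hK⟩ : ∃ K, ∀ t, N0 t ≤ K := by
    have := Set.finite_range N0
    obtain ⟨K, hK⟩ := this.bddAbove
    exact ⟨K, fun t => hK ⟨t, rfl⟩⟩
  refine ⟨max K (m + c + c), fun N hN x hx => ?_⟩
  have hNc : m + c + c ≤ N := le_trans (le_max_right _ _) hN
  have hNc1 : m + c ≤ N := by omega
  have hNK : K ≤ N := le_trans (le_max_left _ _) hN
  -- registers for the current and the next tuple
  let X : Fin c → Fin N := regs m c hNc1
  let Y : Fin c → Fin N := regs (m + c) c hNc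
  have hX : ∀ j, (X j : ℕ) = m + j := fun j => rfl
  have hY : ∀ j, (Y j : ℕ) = m + c + j := fun j => rfl
  have hXinj : Function.Injective X := by
    intro i j h
    have := congrArg Fin.val h
    rw [hX, hX] at this
    exact Fin.ext (by omega)
  have hXY : ∀ i j, X i ≠ Y j := by
    intro i j h
    have := congrArg Fin.val h
    rw [hX, hY] at this
    omega
  have hXx : ∀ i j, X i ≠ x j := by
    intro i j h
    have := congrArg Fin.val h
    rw [hX] at this
    have := hx j
    omega
  let z : ι ⊕ (κ ⊕ κ) → Fin N := Sum.elim (fun i => x (Sum.inl i))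
    (Sum.elim (fun k => X (e k)) (fun k => Y (e k)))
  have hz : ∀ i, (z i : ℕ) < m + c + c := by
    rintro (i | k | k)
    · have := hx (Sum.inl i); simp only [z, Sum.elim_inl]; omega
    · simp only [z, Sum.elim_inl, Sum.elim_inr, hX]; omega
    · simp only [z, Sum.elim_inr, hY]; omega
  have h1 := fun t : T × T => h0 t N ((hK t).trans hNK) z hz
  choose r hr a1 a2 using h1
  -- the program
  let gY : List (Prim α (Fin N)) := [.gs ((List.finRange c).map Y)]
  let cXY : List (Prim α (Fin N)) := [.cp ((List.finRange c).map (fun j => (X j, Y j)))]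
  let cX : List (Prim α (Fin N)) :=
    [.cp ((List.finRange c).map (fun j => (X j, x (Sum.inr (Sum.inl (e.symm j))))))]
  let qX : List (Prim α (Fin N)) :=
    [.eq ((List.finRange c).map (fun j => (X j, x (Sum.inr (Sum.inr (e.symm j))))))]
  let ρ : T → T → Rel α (Fin N) := fun t t' w p p' =>
    ∃ q, runPrims w gY p q ∧ ∃ q', r (t, t') w q q' ∧ runPrims w cXY q' p'
  have hρ : ∀ t t', Impl (ρ t t') := fun t t' =>
    (Impl.prims gY).seq ((hr (t, t')).seq (Impl.prims cXY))
  -- the tuple in the registers `X`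
  let u : (Fin N → ℕ) → κ → ℕ := fun p k => p (X (e k))
  let v : (Fin N → ℕ) → ι → ℕ := fun p i => p (x (Sum.inl i))
  have key1 : ∀ w p t p' t', Bdd w p → ρ t t' w p p' →
      Bdd w p' ∧ (∀ i : Fin N, (i : ℕ) < m → p' i = p i) ∧
        GStep P w (v p) (t, u p) (t', u p') := by
    rintro w p t p' t' hb ⟨q, hq, q', hq', hp'⟩
    obtain ⟨hq1, hq2⟩ := (run_gs _ _ _ _).1 hq
    replace hp' := (run_cp _ _ _ _).1 hp'
    obtain ⟨d1, d2, d3⟩ := a1 (t, t') w q q' hq2 hq'
    have hlow : ∀ i : Fin N, (i : ℕ) < m + c → q i = p i := by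
      intro i hi
      refine hq1 i ?_
      simp only [List.mem_map, List.mem_finRange, true_and, not_exists]
      intro j hj
      have := congrArg Fin.val hj
      rw [hY] at this
      omega
    have hu : u p' = fun k => q (Y (e k)) := by
      funext k
      simp only [u]
      rw [hp', runCopies_of_mem X Y hXinj hXY _ _ _ (List.mem_finRange _)]
      exact d2 _ (by rw [hY]; omega)
    have hb' : Bdd w p' := fun i => by rw [hp']; exact runCopies_le _ _ d1 i
    have hl' : ∀ i : Fin N, (i : ℕ) < m → p' i = p i := by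
      intro i hi
      rw [hp', runCopies_of_notMem]
      · rw [d2 i (by omega), hlow i (by omega)]
      · intro j _ h
        have := congrArg Fin.val h
        rw [hX] at this
        omega
    refine ⟨hb', hl', ⟨fun k => hb' _, ?_⟩⟩
    · change P t t' w (Sum.elim (v p) (Sum.elim (u p) (u p')))
      rw [hu]
      have : (Sum.elim (v p) (Sum.elim (u p) fun k => q (Y (e k)))) = fun i => q (z i) := by
        funext i
        rcases i with i | k | k
        · simp only [Sum.elim_inl, v, z]
          exact (hlow _ (by have := hx (Sum.inl i); omega)).symm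
        · simp only [Sum.elim_inl, Sum.elim_inr, u, z]
          exact (hlow _ (by rw [hX]; omega)).symm
        · simp only [Sum.elim_inr, z]
      rw [this]
      exact d3
  have key2 : ∀ w p t t' (y : κ → ℕ), Bdd w p → GStep P w (v p) (t, u p) (t', y) →
      ∃ p', ρ t t' w p p' ∧ u p' = y := by
    rintro w p t t' y hb ⟨hy, hg⟩
    simp only at hy hg
    let q : Fin N → ℕ := fun i => if h : m + c ≤ (i : ℕ) ∧ (i : ℕ) < m + c + c then
      y (e.symm ⟨i - (m + c), by omega⟩) else p i
    have hq : Bdd w q := by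
      intro i
      simp only [q]
      split_ifs
      · exact hy _
      · exact hb _
    have hqY : ∀ k, q (Y (e k)) = y k := by
      intro k
      simp only [q, hY]
      rw [dif_pos (by omega)]
      congr 1
      have : (⟨m + c + (e k : ℕ) - (m + c), by omega⟩ : Fin c) = e k := by
        apply Fin.ext; simp
      rw [this, Equiv.symm_apply_apply]
    have hlow : ∀ i : Fin N, (i : ℕ) < m + c → q i = p i := by
      intro i hi
      simp only [q]
      rw [dif_neg (by omega)]
    have hz2 : (Sum.elim (v p) (Sum.elim (u p) y)) = fun i => q (z i) := by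
      funext i
      rcases i with i | k | k
      · simp only [Sum.elim_inl, v, z]
        exact (hlow _ (by have := hx (Sum.inl i); omega)).symm
      · simp only [Sum.elim_inl, Sum.elim_inr, u, z]
        exact (hlow _ (by rw [hX]; omega)).symm
      · simp only [Sum.elim_inr, z]
        exact (hqY k).symm
    rw [hz2] at hg
    obtain ⟨q', hq'⟩ := a2 (t, t') w q hq hg
    obtain ⟨d1, d2, d3⟩ := a1 (t, t') w q q' hq hq'
    refine ⟨runCopies ((List.finRange c).map (fun j => (X j, Y j))) q',
      ⟨q, (run_gs _ _ _ _).2 ⟨fun i hi => ?_, hq⟩, q', hq', (run_cp _ _ _ _).2 rfl⟩, ?_⟩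
    · simp only [q]
      rw [dif_neg]
      rintro ⟨h6, h7⟩
      apply hi
      simp only [List.mem_map, List.mem_finRange, true_and]
      exact ⟨⟨i - (m + c), by omega⟩, Fin.ext (by rw [hY]; simp only; omega)⟩
    · funext k
      simp only [u]
      rw [runCopies_of_mem X Y hXinj hXY _ _ _ (List.mem_finRange _),
        d2 _ (by rw [hY]; omega), hqY]
  have hv : ∀ p p' : Fin N → ℕ, (∀ i : Fin N, (i : ℕ) < m → p' i = p i) → v p' = v p := by
    intro p p' h
    funext i
    exact h _ (hx _)
  have key3 : ∀ w p t c', Bdd w p → ReflTransGen (TStep ρ w) (t, p) c' →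
      Bdd w c'.2 ∧ (∀ i : Fin N, (i : ℕ) < m → c'.2 i = p i) ∧
        ReflTransGen (GStep P w (v p)) (t, u p) (c'.1, u c'.2) := by
    intro w p t c' hb h
    induction h with
    | refl => exact ⟨hb, fun _ _ => rfl, .refl⟩
    | @tail c1 c2 _ hs ih =>
      obtain ⟨e1, e2, e3⟩ := ih
      obtain ⟨f1, f2, f3⟩ := key1 w c1.2 c1.1 c2.2 c2.1 e1 hs
      refine ⟨f1, fun i hi => (f2 i hi).trans (e2 i hi), e3.tail ?_⟩
      rw [hv p c1.2 e2] at f3
      exact f3
  have key4 : ∀ w p t c', Bdd w p → ReflTransGen (GStep P w (v p)) (t, u p) c' →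
      ∃ p', ReflTransGen (TStep ρ w) (t, p) (c'.1, p') ∧ u p' = c'.2 := by
    intro w p t c' hb h
    induction h with
    | refl => exact ⟨p, .refl, rfl⟩
    | @tail c1 c2 _ hs ih =>
      obtain ⟨p1, h1, h2⟩ := ih
      obtain ⟨e1, e2, e3⟩ := key3 w p t _ hb h1
      have hs' : GStep P w (v p1) (c1.1, u p1) (c2.1, c2.2) := by
        rw [hv p p1 e2, h2]
        exact hs
      obtain ⟨p', h3, h4⟩ := key2 w p1 c1.1 c2.1 c2.2 e1 hs'
      exact ⟨p', h1.tail h3, h4⟩
  refine ⟨_, (Impl.prims cX).seq ((Impl.auto a b ρ hρ).seq (Impl.prims qX)),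
    fun w p p' hb h => ?_, fun w p hb hp => ?_⟩
  · obtain ⟨q, hq, q', hq', hp'⟩ := h
    replace hq := (run_cp _ _ _ _).1 hq
    subst hq
    obtain ⟨hq1, hp'⟩ := (run_eq _ _ _ _).1 hp'
    subst hp'
    have hb0 : Bdd w (runCopies ((List.finRange c).map
        (fun j => (X j, x (Sum.inr (Sum.inl (e.symm j)))))) p) := fun i => runCopies_le _ _ hb i
    have hlow : ∀ i : Fin N, (i : ℕ) < m → runCopies ((List.finRange c).map
        (fun j => (X j, x (Sum.inr (Sum.inl (e.symm j)))))) p i = p i := by
      intro i hi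
      rw [runCopies_of_notMem]
      intro j _ h
      have := congrArg Fin.val h
      rw [hX] at this
      omega
    obtain ⟨e1, e2, e3⟩ := key3 w _ a _ hb0 hq'
    refine ⟨e1, fun i hi => (e2 i hi).trans (hlow i hi), ?_⟩
    rw [hv p _ hlow] at e3
    have hu1 : u (runCopies ((List.finRange c).map
        (fun j => (X j, x (Sum.inr (Sum.inl (e.symm j)))))) p) =
        fun k => p (x (Sum.inr (Sum.inl k))) := by
      funext k
      simp only [u]
      rw [runCopies_of_mem X _ hXinj (fun i j => hXx _ _) _ _ _ (List.mem_finRange _),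
        Equiv.symm_apply_apply]
    have hu2 : u p' = fun k => p (x (Sum.inr (Sum.inr k))) := by
      funext k
      simp only [u]
      have := hq1 (X (e k), x (Sum.inr (Sum.inr (e.symm (e k)))))
        (List.mem_map.2 ⟨e k, List.mem_finRange _, rfl⟩)
      simp only [Equiv.symm_apply_apply] at this
      exact this.trans ((e2 _ (hx _)).trans (hlow _ (hx _)))
    rw [hu1] at e3
    simp only at e3
    rw [hu2] at e3
    exact e3
  · have hb0 : Bdd w (runCopies ((List.finRange c).map
        (fun j => (X j, x (Sum.inr (Sum.inl (e.symm j)))))) p) := fun i => runCopies_le _ _ hb i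
    have hlow : ∀ i : Fin N, (i : ℕ) < m → runCopies ((List.finRange c).map
        (fun j => (X j, x (Sum.inr (Sum.inl (e.symm j)))))) p i = p i := by
      intro i hi
      rw [runCopies_of_notMem]
      intro j _ h
      have := congrArg Fin.val h
      rw [hX] at this
      omega
    have hu1 : u (runCopies ((List.finRange c).map
        (fun j => (X j, x (Sum.inr (Sum.inl (e.symm j)))))) p) =
        fun k => p (x (Sum.inr (Sum.inl k))) := by
      funext k
      simp only [u]
      rw [runCopies_of_mem X _ hXinj (fun i j => hXx _ _) _ _ _ (List.mem_finRange _),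
        Equiv.symm_apply_apply]
    have hp' : ReflTransGen (GStep P w (v (runCopies ((List.finRange c).map
        (fun j => (X j, x (Sum.inr (Sum.inl (e.symm j)))))) p))) (a, u (runCopies
          ((List.finRange c).map (fun j => (X j, x (Sum.inr (Sum.inl (e.symm j)))))) p))
        (b, fun k => p (x (Sum.inr (Sum.inr k)))) := by
      rw [hv p _ hlow, hu1]
      exact hp
    obtain ⟨q', h1, h2⟩ := key4 w _ a _ hb0 hp'
    obtain ⟨e1, e2, e3⟩ := key3 w _ a _ hb0 h1
    refine ⟨q', _, (run_cp _ _ _ _).2 rfl, q', h1, (run_eq _ _ _ _).2 ⟨?_, rfl⟩⟩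
    intro y hy
    obtain ⟨j, _, rfl⟩ := List.mem_map.1 hy
    have h3 := congrFun h2 (e.symm j)
    simp only [u, Equiv.apply_symm_apply] at h3
    exact h3.trans ((e2 _ (hx _)).trans (hlow _ (hx _))).symm

/-- **The languages defined by such relations.** -/
theorem IsNL.twoNFA {P : List α → (Empty → ℕ) → Prop} (hP : IsNL P) :
    ∃ k, {w | P w Empty.elim} ∈ twoNFA k α := by
  obtain ⟨N0, h0⟩ := hP 0
  obtain ⟨r, ⟨M, f, hM⟩, h1, h2⟩ := h0 N0 le_rfl Empty.elim (fun i => i.elim)
  let M' : BM α (Fin N0) := { M with acc := {f} }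
  obtain ⟨F, hF⟩ := bm_to_fa M'
  refine ⟨N0 + 1, F.reindex (finSuccEquiv N0).symm, ?_⟩
  rw [FA.lang_reindex, hF]
  have hemp : ∀ v : Empty → ℕ, v = Empty.elim := by
    intro p; funext i; exact i.elim
  ext w
  constructor
  · rintro ⟨c, hc, hacc⟩
    have hq : c.q = f := hacc
    have hc' : ReflTransGen (M.Step w) ⟨M.init, fun _ => 0⟩ ⟨f, c.pos⟩ := by
      rw [← hq]; exact hc
    have h3 : r w (fun _ => 0) c.pos := (hM w _ _).1 hc'
    have h4 := (h1 w _ _ (fun _ => by simp) h3).2.2
    rw [hemp (fun i => _)] at h4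
    exact h4
  · intro hw
    obtain ⟨p', hp'⟩ := h2 w (fun _ => 0) (fun _ => by simp) (by rw [hemp (fun i => _)]; exact hw)
    exact ⟨⟨f, p'⟩, (hM w _ _).2 hp', rfl⟩

end Pool.Agent.V8H47.NLK
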