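import Pool.Agent.V8H47.MH.PDS
import Pool.Agent.V8H47.NLK.RatDefs

/-!
# Pushdown systems with typed actions: hierarchical verification of balanced runs
-/

namespace Pool.Agent.V8H47.NLK

open Relation Pool.Agent.V8H47.MH

/-- A pushdown system: neutral steps, pushing and popping steps. -/
structure TPS (V S : Type) where
  N : V → V → Prop
  U : S → V → V → Prop
  O : S → V → V → Prop

namespace TPS

variable {V S : Type} (P : TPS V S)

/-- the steps of the system; the top of the store is the first element of the list -/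
def Step (c c' : V × List S) : Prop :=
  (P.N c.1 c'.1 ∧ c'.2 = c.2) ∨ (∃ s, P.U s c.1 c'.1 ∧ c'.2 = s :: c.2) ∨
    (∃ s, P.O s c.1 c'.1 ∧ c.2 = s :: c'.2)

/-- a neutral step or an excursion -/
def Ex (B : V → V → Prop) (x y : V) : Prop :=
  P.N x y ∨ ∃ s u v, P.U s x u ∧ B u v ∧ P.O s v y

/-- balanced runs of height at most `h` -/
def Bal : ℕ → V → V → Prop
  | 0 => ReflTransGen P.N
  | h + 1 => ReflTransGen (P.Ex (Bal h))

theorem bal_mono (h : ℕ) : ∀ x y : V, P.Bal h x y → P.Bal (h + 1) x y := by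
  induction h with
  | zero =>
    intro x y hb
    exact ReflTransGen.mono (fun a b hab => Or.inl hab) _ _ hb
  | succ h ih =>
    intro x y hb
    refine ReflTransGen.mono (fun a b hab => ?_) _ _ hb
    rcases hab with hab | ⟨s, u, v, h1, h2, h3⟩
    · exact Or.inl hab
    · exact Or.inr ⟨s, u, v, h1, ih _ _ h2, h3⟩

theorem bal_mono_le {h h' : ℕ} (hle : h ≤ h') {x y : V} (hb : P.Bal h x y) : P.Bal h' x y := by
  induction hle with
  | refl => exact hb
  | step _ ih => exact P.bal_mono _ _ _ ih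

theorem bal_stable [Finite V] {h : ℕ} {x y : V} (hb : P.Bal h x y) :
    P.Bal (Nat.card (V × V)) x y := by
  let F : ℕ → Set (V × V) := fun n => {z | P.Bal n z.1 z.2}
  have h1 : ∀ n, F n ⊆ F (n + 1) := fun n z hz => P.bal_mono n _ _ hz
  have h2 : ∀ n, F n = F (n + 1) → F (n + 1) = F (n + 2) := by
    intro n hn
    have : P.Bal n = P.Bal (n + 1) := by
      funext x y
      have := Set.ext_iff.1 hn (x, y)
      exact propext this
    have h3 : P.Bal (n + 1) = P.Bal (n + 2) := by
      change ReflTransGen (P.Ex (P.Bal n)) = ReflTransGen (P.Ex (P.Bal (n + 1)))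
      rw [this]
    change {z : V × V | P.Bal (n + 1) z.1 z.2} = {z | P.Bal (n + 2) z.1 z.2}
    rw [h3]
  exact chain_stable F h1 h2 h (show (x, y) ∈ F h from hb)

theorem bal_refl (h : ℕ) (x : V) : P.Bal h x x := by
  cases h <;> exact .refl

theorem bal_trans {x y z : V} {h1 h2 : ℕ} (a : P.Bal h1 x y) (b : P.Bal h2 y z) :
    ∃ h, P.Bal h x z := by
  refine ⟨max h1 h2 + 1, ?_⟩
  have h3 := P.bal_mono_le (show h1 ≤ max h1 h2 + 1 by omega) a
  have h4 := P.bal_mono_le (show h2 ≤ max h1 h2 + 1 by omega) b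
  exact ReflTransGen.trans h3 h4

/-- runs from `x` with the store `st` to `y` with the empty store -/
def Can (y : V) : List S → V → Prop
  | [] => fun x => ∃ h, P.Bal h x y
  | s :: st => fun x => ∃ h a b, P.Bal h x a ∧ P.O s a b ∧ Can y st b

theorem can_of_bal {y : V} {st : List S} {x z : V} {h : ℕ} (h1 : P.Bal h x z)
    (h2 : P.Can y st z) : P.Can y st x := by
  cases st with
  | nil => obtain ⟨h', h2⟩ := h2; exact P.bal_trans h1 h2
  | cons s st =>
    obtain ⟨h', a, b, h3, h4, h5⟩ := h2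
    obtain ⟨h'', h6⟩ := P.bal_trans h1 h3
    exact ⟨h'', a, b, h6, h4, h5⟩

theorem can_step {y : V} {c c' : V × List S} (hs : P.Step c c') (h : P.Can y c'.2 c'.1) :
    P.Can y c.2 c.1 := by
  obtain ⟨x, st⟩ := c
  obtain ⟨x', st'⟩ := c'
  rcases hs with ⟨h1, h2⟩ | ⟨s, h1, h2⟩ | ⟨s, h1, h2⟩
  · simp only at h1 h2 h ⊢
    subst h2
    exact P.can_of_bal (h := 0) (ReflTransGen.single h1) h
  · simp only at h1 h2 h ⊢
    subst h2
    obtain ⟨h', a, b, h3, h4, h5⟩ := h
    exact P.can_of_bal (h := h' + 1) (ReflTransGen.single (Or.inr ⟨s, x', a, h1, h3, h4⟩)) h5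
  · simp only at h1 h2 h ⊢
    subst h2
    exact ⟨0, x, x', P.bal_refl _ _, h1, h⟩

/-- runs from the empty to the empty store are balanced -/
theorem exists_bal {x y : V} (h : ReflTransGen P.Step (x, []) (y, [])) : ∃ h, P.Bal h x y := by
  have : P.Can y [] x := by
    have key : ∀ c : V × List S, ReflTransGen P.Step c (y, []) → P.Can y c.2 c.1 := by
      intro c hc
      induction hc using ReflTransGen.head_induction_on with
      | refl => exact ⟨0, .refl⟩
      | head hs _ ih => exact P.can_step hs ih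
    exact key _ h
  exact this

/-! ### Verification -/

/-- a run from `x` to `y` without using the given store -/
def Snd (x y : V) : Prop := ∀ st, ReflTransGen P.Step (x, st) (y, st)

/-- steps with a counter: the content of the store consists of the first symbols given
by `f` -/
def CStep (J : V → V → Prop) (H : ℕ) (f : ℕ → Option S) (c c' : V × ℕ) : Prop :=
  (P.N c.1 c'.1 ∧ c'.2 = c.2) ∨
  (∃ s, f c.2 = some s ∧ P.U s c.1 c'.1 ∧ c'.2 = c.2 + 1 ∧ c'.2 < H) ∨
  (∃ s, f c'.2 = some s ∧ P.O s c.1 c'.1 ∧ c.2 = c'.2 + 1 ∧ c.2 < H) ∨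
  (J c.1 c'.1 ∧ c'.2 = c.2) ∨
  (∃ s u v, P.U s c.1 u ∧ J u v ∧ P.O s v c'.1 ∧ c'.2 = c.2)

/-- steps along a spine -/
def SStep (J : V → V → Prop) (c c' : V × V) : Prop :=
  (P.N c.1 c'.1 ∧ c'.2 = c.2) ∨
  (J c.1 c'.1 ∧ c'.2 = c.2) ∨
  (∃ s u v, P.U s c.1 u ∧ J u v ∧ P.O s v c'.1 ∧ c'.2 = c.2) ∨
  (∃ s y, P.U s c.1 c'.1 ∧ P.O s c'.2 y ∧ J y c.2)

/-- the relations verified at level `k` -/
def Vk {G : Type} (H : ℕ) (g : G → ℕ → Option S) : ℕ → V → V → Prop
  | 0 => fun x y => x = y
  | k + 1 => fun x y =>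
      (∃ i, ReflTransGen (P.CStep (Vk H g k) H (g i)) (x, 0) (y, 0)) ∨
      (∃ z, ReflTransGen (P.SStep (Vk H g k)) (x, y) (z, z))

/-- the content of the store given by `f` -/
def stk (f : ℕ → Option S) : ℕ → List S
  | 0 => []
  | m + 1 => (f m).toList ++ stk f m

theorem snd_refl (x : V) : P.Snd x x := fun _ => .refl

theorem snd_trans {x y z : V} (h1 : P.Snd x y) (h2 : P.Snd y z) : P.Snd x z :=
  fun st => (h1 st).trans (h2 st)

theorem snd_N {x y : V} (h : P.N x y) : P.Snd x y :=
  fun _ => ReflTransGen.single (Or.inl ⟨h, rfl⟩)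

theorem snd_ex {s : S} {x u v y : V} (h1 : P.U s x u) (h2 : P.Snd u v) (h3 : P.O s v y) :
    P.Snd x y := by
  intro st
  have e1 : P.Step (x, st) (u, s :: st) := Or.inr (Or.inl ⟨s, h1, rfl⟩)
  have e2 : P.Step (v, s :: st) (y, st) := Or.inr (Or.inr ⟨s, h3, rfl⟩)
  exact (ReflTransGen.head e1 (h2 (s :: st))).tail e2

theorem cstep_sound {J : V → V → Prop} (hJ : ∀ x y, J x y → P.Snd x y) {H : ℕ}
    {f : ℕ → Option S} {c c' : V × ℕ} (h : ReflTransGen (P.CStep J H f) c c') (st : List S) :
    ReflTransGen P.Step (c.1, stk f c.2 ++ st) (c'.1, stk f c'.2 ++ st) := by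
  induction h with
  | refl => exact .refl
  | @tail c c' _ hs ih =>
    refine ih.trans ?_
    rcases hs with ⟨h1, h2⟩ | ⟨s, h0, h1, h2, _⟩ | ⟨s, h0, h1, h2, _⟩ | ⟨h1, h2⟩ |
      ⟨s, u, v, h1, h2, h3, h4⟩
    · rw [h2]; exact P.snd_N h1 _
    · rw [h2]
      refine ReflTransGen.single (Or.inr (Or.inl ⟨s, h1, ?_⟩))
      simp [stk, h0]
    · rw [h2]
      refine ReflTransGen.single (Or.inr (Or.inr ⟨s, h1, ?_⟩))
      simp [stk, h0]
    · rw [h2]; exact hJ _ _ h1 _
    · rw [h4]; exact P.snd_ex h1 (hJ _ _ h2) h3 _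

theorem sstep_sound {J : V → V → Prop} (hJ : ∀ x y, J x y → P.Snd x y) {c : V × V} {z : V}
    (h : ReflTransGen (P.SStep J) c (z, z)) : P.Snd c.1 c.2 := by
  induction h using ReflTransGen.head_induction_on with
  | refl => exact P.snd_refl _
  | @head c c' hs _ ih =>
    rcases hs with ⟨h1, h2⟩ | ⟨h1, h2⟩ | ⟨s, u, v, h1, h2, h3, h4⟩ | ⟨s, y, h1, h2, h3⟩
    · rw [h2] at ih; exact P.snd_trans (P.snd_N h1) ih
    · rw [h2] at ih; exact P.snd_trans (hJ _ _ h1) ih
    · rw [h4] at ih; exact P.snd_trans (P.snd_ex h1 (hJ _ _ h2) h3) ih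
    · exact P.snd_trans (P.snd_ex h1 ih h2) (hJ _ _ h3)

/-- **Soundness.** -/
theorem vk_sound {G : Type} {H : ℕ} {g : G → ℕ → Option S} : ∀ (k : ℕ) (x y : V),
    P.Vk H g k x y → P.Snd x y := by
  intro k
  induction k with
  | zero => rintro x y rfl; exact P.snd_refl x
  | succ k ih =>
    rintro x y (⟨i, h⟩ | ⟨z, h⟩)
    · intro st
      have := P.cstep_sound ih h st
      simpa [stk] using this
    · exact P.sstep_sound ih h

end TPS

variable {S Q : Type} [DecidableEq S]

theorem runS_append (l l' : List (S × Bool)) : ∀ st : List S,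
    runS (l ++ l') st = (runS l st).bind (runS l') := by
  induction l with
  | nil => intro st; rfl
  | cons a l ih =>
    intro st
    obtain ⟨s, b⟩ := a
    cases b with
    | true => simpa [runS] using ih (s :: st)
    | false =>
      cases st with
      | nil => simp [runS]
      | cons t st =>
        simp only [List.cons_append, runS]
        split_ifs
        · exact ih st
        · rfl

theorem runS_frame (l : List (S × Bool)) : ∀ (st st' base : List S),
    runS l st = some st' → runS l (st ++ base) = some (st' ++ base) := by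
  induction l with
  | nil => intro st st' base h; simp only [runS, Option.some.injEq] at h ⊢; rw [h]
  | cons a l ih =>
    intro st st' base h
    obtain ⟨s, b⟩ := a
    cases b with
    | true =>
      simp only [runS] at h ⊢
      exact ih (s :: st) st' base h
    | false =>
      cases st with
      | nil => simp [runS] at h
      | cons t st =>
        simp only [runS, List.cons_append] at h ⊢
        split_ifs at h ⊢ with hst
        exact ih st st' base h

theorem runS_trans {l l' : List (S × Bool)} {a b c : List S} (h1 : runS l a = some b)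
    (h2 : runS l' b = some c) : runS (l ++ l') a = some c := by
  rw [runS_append, h1]; exact h2

/-- the semi-Dyck words -/
def bal (l : List (S × Bool)) : Prop := runS l [] = some []

end Pool.Agent.V8H47.NLK
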