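import Pool.Agent.V8H47.NLK.Dig
import Pool.Agent.V8H47.NLK.Types

/-!
# The relations `Vk` are verified by multihead finite automata
-/

namespace Pool.Agent.V8H47.NLK

open Relation Pool.Agent.V8H47.MH

variable {α C S : Type}

/-- binary relations between configurations (state, position) -/
def NL2 (J : List α → C × ℕ → C × ℕ → Prop) : Prop :=
  ∀ c c', IsNL (fun w (v : Bool → ℕ) => J w (c, v false) (c', v true))

theorem NL2.at {ι : Type} {J : List α → C × ℕ → C × ℕ → Prop} (h : NL2 J) (c c' : C) (i j : ι) :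
    IsNL (fun w (v : ι → ℕ) => J w (c, v i) (c', v j)) :=
  (h c c').reindex (fun b => if b then j else i)

/-- a family of pushdown systems, one for each input word, whose steps are verified -/
structure NLSys (P : List α → TPS (C × ℕ) S) : Prop where
  N : NL2 (fun w => (P w).N)
  U : ∀ s, NL2 (fun w => (P w).U s)
  O : ∀ s, NL2 (fun w => (P w).O s)
  bN : ∀ w x y, (P w).N x y → y.2 ≤ w.length + 1
  bU : ∀ w s x y, (P w).U s x y → y.2 ≤ w.length + 1
  bO : ∀ w s x y, (P w).O s x y → y.2 ≤ w.length + 1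
  bO' : ∀ w s x y, (P w).O s x y → x.2 ≤ w.length + 1

variable {P : List α → TPS (C × ℕ) S}

theorem NLSys.step_bdd (hP : NLSys P) {w : List α} {c c' : (C × ℕ) × List S}
    (h : (P w).Step c c') : c'.1.2 ≤ w.length + 1 := by
  rcases h with ⟨h1, _⟩ | ⟨s, h1, _⟩ | ⟨s, h1, _⟩
  · exact hP.bN _ _ _ h1
  · exact hP.bU _ _ _ _ h1
  · exact hP.bO _ _ _ _ h1

theorem NLSys.steps_bdd (hP : NLSys P) {w : List α} {c c' : (C × ℕ) × List S}
    (h : ReflTransGen (P w).Step c c') (hc : c.1.2 ≤ w.length + 1) :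
    c'.1.2 ≤ w.length + 1 := by
  induction h with
  | refl => exact hc
  | tail _ hs _ => exact hP.step_bdd hs

/-- jumps lead to positions -/
def JBdd (J : List α → C × ℕ → C × ℕ → Prop) : Prop :=
  ∀ w x y, J w x y → x.2 ≤ w.length + 1 → y.2 ≤ w.length + 1

theorem valD_lt {n : ℕ} : ∀ {d : ℕ} {x : Fin d → ℕ}, (∀ i, x i ≤ n + 1) →
    valD n d x < (n + 2) ^ d := by
  intro d
  induction d with
  | zero => intro x _; simp [valD]
  | succ d ih =>
    intro x h
    have h1 := h 0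
    have h2 := ih (x := fun i => x i.succ) (fun i => h i.succ)
    simp only [valD, pow_succ]
    calc x 0 + (n + 2) * valD n d (fun i => x i.succ)
        < (n + 2) + (n + 2) * valD n d (fun i => x i.succ) := by omega
      _ = (n + 2) * (valD n d (fun i => x i.succ) + 1) := by ring
      _ ≤ (n + 2) * (n + 2) ^ d := Nat.mul_le_mul_left _ h2
      _ = (n + 2) ^ d * (n + 2) := by ring

section cstep

variable (P) (J : List α → C × ℕ → C × ℕ → Prop) (d p : ℕ) (f : ℕ → Option S)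

/-- the steps of a counter machine, with the counter written with `d` digits -/
def PC (t t' : C × Fin p) (w : List α) (v : Empty ⊕ (Option (Fin d) ⊕ Option (Fin d)) → ℕ) :
    Prop :=
  ((P w).N (t.1, v (.inr (.inl none))) (t'.1, v (.inr (.inr none))) ∧ t'.2 = t.2 ∧
    ∀ i, v (.inr (.inr (some i))) = v (.inr (.inl (some i)))) ∨
  (∃ s, ((f t.2 = some s ∧ (t'.2 : ℕ) = (t.2 + 1) % p) ∧
    (P w).U s (t.1, v (.inr (.inl none))) (t'.1, v (.inr (.inr none))) ∧
    SuccD w.length d (fun i => v (.inr (.inl (some i)))) (fun i => v (.inr (.inr (some i)))))) ∨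
  (∃ s, ((f t'.2 = some s ∧ (t.2 : ℕ) = (t'.2 + 1) % p) ∧
    (P w).O s (t.1, v (.inr (.inl none))) (t'.1, v (.inr (.inr none))) ∧
    SuccD w.length d (fun i => v (.inr (.inr (some i)))) (fun i => v (.inr (.inl (some i)))))) ∨
  (J w (t.1, v (.inr (.inl none))) (t'.1, v (.inr (.inr none))) ∧ t'.2 = t.2 ∧
    ∀ i, v (.inr (.inr (some i))) = v (.inr (.inl (some i)))) ∨
  (∃ s, ∃ cc : C × C, ∃ a : Bool → ℕ, (∀ b, a b ≤ w.length + 1) ∧
    ((P w).U s (t.1, Sum.elim v a (.inl (.inr (.inl none)))) (cc.1, Sum.elim v a (.inr false)) ∧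
      J w (cc.1, Sum.elim v a (.inr false)) (cc.2, Sum.elim v a (.inr true)) ∧
      (P w).O s (cc.2, Sum.elim v a (.inr true))
        (t'.1, Sum.elim v a (.inl (.inr (.inr none)))) ∧
      t'.2 = t.2 ∧ ∀ i, Sum.elim v a (.inl (.inr (.inr (some i)))) =
        Sum.elim v a (.inl (.inr (.inl (some i))))))

variable {P J}

theorem PC_isNL [Finite C] [Finite S] (hP : NLSys P) (hJ : NL2 J) (t t' : C × Fin p) :
    IsNL (PC P J d p f t t') := by
  have hsame : IsNL (fun (_ : List α) (v : Empty ⊕ (Option (Fin d) ⊕ Option (Fin d)) → ℕ) =>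
      t'.2 = t.2 ∧ ∀ i : Fin d, v (.inr (.inr (some i))) = v (.inr (.inl (some i)))) :=
    (IsNL.const _).and (IsNL.iForall (fun i => IsNL.eq _ _))
  refine IsNL.or ?_ (IsNL.or ?_ (IsNL.or ?_ (IsNL.or ?_ ?_)))
  · exact (hP.N.at _ _ _ _).and hsame
  · exact IsNL.iExists (fun s => (IsNL.const _).and (((hP.U s).at _ _ _ _).and
      (IsNL.succD d _ _)))
  · exact IsNL.iExists (fun s => (IsNL.const _).and (((hP.O s).at _ _ _ _).and
      (IsNL.succD d _ _)))
  · exact (hJ.at _ _ _ _).and hsame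
  · refine IsNL.iExists (fun s => IsNL.iExists (fun cc => ?_))
    refine IsNL.ex (κ := Bool)
      (P := fun w (v : (Empty ⊕ (Option (Fin d) ⊕ Option (Fin d))) ⊕ Bool → ℕ) =>
      (P w).U s (t.1, v (.inl (.inr (.inl none)))) (cc.1, v (.inr false)) ∧
      J w (cc.1, v (.inr false)) (cc.2, v (.inr true)) ∧
      (P w).O s (cc.2, v (.inr true)) (t'.1, v (.inl (.inr (.inr none)))) ∧
      t'.2 = t.2 ∧ ∀ i, v (.inl (.inr (.inr (some i)))) = v (.inl (.inr (.inl (some i))))) ?_
    exact ((hP.U s).at _ _ _ _).and ((hJ.at _ _ _ _).and (((hP.O s).at _ _ _ _).and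
      ((IsNL.const _).and (IsNL.iForall (fun i => IsNL.eq _ _)))))

/-- the configuration with a counter -/
def cfgC (n : ℕ) (c : (C × Fin p) × (Option (Fin d) → ℕ)) : (C × ℕ) × ℕ :=
  ((c.1.1, c.2 none), valD n d (fun i => c.2 (some i)))

theorem PC_sound (hP : NLSys P) (hp : 0 < p) (hf : ∀ m, f m = f (m % p)) {w : List α}
    {ve : Empty → ℕ} {c c' : (C × Fin p) × (Option (Fin d) → ℕ)}
    (h : ReflTransGen (GStep (PC P J d p f) w ve) c c') (hb : ∀ k, c.2 k ≤ w.length + 1)
    (hr : (c.1.2 : ℕ) = valD w.length d (fun i => c.2 (some i)) % p) :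
    (∀ k, c'.2 k ≤ w.length + 1) ∧ (c'.1.2 : ℕ) = valD w.length d (fun i => c'.2 (some i)) % p ∧
    ReflTransGen ((P w).CStep (J w) ((w.length + 2) ^ d) f) (cfgC d p w.length c)
      (cfgC d p w.length c') := by
  induction h with
  | refl => exact ⟨hb, hr, .refl⟩
  | @tail b c' _ hs ih =>
    obtain ⟨i1, i2, i3⟩ := ih
    obtain ⟨h1, h2⟩ := hs
    obtain ⟨⟨t, r⟩, u⟩ := b
    obtain ⟨⟨t', r'⟩, u'⟩ := c'
    simp only [PC, Sum.elim_inl, Sum.elim_inr] at h1 h2 i1 i2
    have hlt : valD w.length d (fun i => u (some i)) < (w.length + 2) ^ d :=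
      valD_lt (fun i => i1 _)
    have hlt' : valD w.length d (fun i => u' (some i)) < (w.length + 2) ^ d :=
      valD_lt (fun i => h1 _)
    refine ⟨h1, ?_⟩
    simp only
    rcases h2 with ⟨g1, g2, g3⟩ | ⟨s, ⟨g1, g2⟩, g3, g4⟩ | ⟨s, ⟨g1, g2⟩, g3, g4⟩ | ⟨g1, g2, g3⟩ |
      ⟨s, cc, a, g0, g1, g2, g3, g4, g5⟩
    · have e : (fun i => u' (some i)) = fun i : Fin d => u (some i) := funext g3
      refine ⟨by rw [e, g2]; exact i2, i3.tail (Or.inl ⟨g1, ?_⟩)⟩
      simp only [cfgC, e]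
    · have e := valD_succ g4
      have er : (r' : ℕ) = valD w.length d (fun i => u' (some i)) % p := by
        rw [e, g2, i2, Nat.mod_add_mod]
      refine ⟨er, i3.tail (Or.inr (Or.inl ⟨s, ?_, g3, ?_, ?_⟩))⟩
      · simp only [cfgC]; rw [hf, ← i2]; exact g1
      · simp only [cfgC]; exact e
      · simp only [cfgC]; exact hlt'
    · have e := valD_succ g4
      have hr' : (r' : ℕ) = valD w.length d (fun i => u' (some i)) % p := by
        have h5 : ((r' : ℕ) + 1) % p = (valD w.length d (fun i => u' (some i)) + 1) % p := by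
          rw [← g2, i2, e]
        have h6 : (r' : ℕ) % p = valD w.length d (fun i => u' (some i)) % p :=
          Nat.ModEq.add_right_cancel' 1 h5
        rwa [Nat.mod_eq_of_lt r'.2] at h6
      refine ⟨hr', i3.tail (Or.inr (Or.inr (Or.inl ⟨s, ?_, g3, ?_, ?_⟩)))⟩
      · simp only [cfgC]; rw [hf, ← hr']; exact g1
      · simp only [cfgC]; exact e
      · simp only [cfgC]; exact hlt
    · have e : (fun i => u' (some i)) = fun i : Fin d => u (some i) := funext g3
      refine ⟨by rw [e, g2]; exact i2,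
        i3.tail (Or.inr (Or.inr (Or.inr (Or.inl ⟨g1, ?_⟩))))⟩
      simp only [cfgC, e]
    · have e : (fun i => u' (some i)) = fun i : Fin d => u (some i) := funext g5
      refine ⟨by rw [e, g4]; exact i2,
        i3.tail (Or.inr (Or.inr (Or.inr (Or.inr ⟨s, _, _, g1, g2, g3, ?_⟩))))⟩
      simp only [cfgC, e]

/-- the configuration of the machine -/
def cfgG (n : ℕ) (hp : 0 < p) (c : (C × ℕ) × ℕ) : (C × Fin p) × (Option (Fin d) → ℕ) :=
  ((c.1.1, ⟨c.2 % p, Nat.mod_lt _ hp⟩), fun o => match o with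
    | none => c.1.2
    | some i => encD n d c.2 i)

theorem PC_complete (hP : NLSys P) (hJb : JBdd J) (hp : 0 < p) (hf : ∀ m, f m = f (m % p))
    {w : List α} {ve : Empty → ℕ} {c c' : (C × ℕ) × ℕ}
    (h : ReflTransGen ((P w).CStep (J w) ((w.length + 2) ^ d) f) c c')
    (hb : c.1.2 ≤ w.length + 1) :
    c'.1.2 ≤ w.length + 1 ∧
    ReflTransGen (GStep (PC P J d p f) w ve) (cfgG d p w.length hp c)
      (cfgG d p w.length hp c') := by
  induction h with
  | refl => exact ⟨hb, .refl⟩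
  | @tail b c' _ hs ih =>
    obtain ⟨i1, i3⟩ := ih
    have hb' : c'.1.2 ≤ w.length + 1 := by
      rcases hs with ⟨h1, _⟩ | ⟨s, _, h1, _⟩ | ⟨s, _, h1, _⟩ | ⟨h1, _⟩ | ⟨s, _, _, _, _, h1, _⟩
      · exact hP.bN _ _ _ h1
      · exact hP.bU _ _ _ _ h1
      · exact hP.bO _ _ _ _ h1
      · exact hJb _ _ _ h1 i1
      · exact hP.bO _ _ _ _ h1
    refine ⟨hb', i3.tail ⟨?_, ?_⟩⟩
    · rintro (_ | i)
      · exact hb'
      · exact encD_le i
    · obtain ⟨⟨t, i⟩, m⟩ := b
      obtain ⟨⟨t', i'⟩, m'⟩ := c'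
      simp only [PC, cfgG, Sum.elim_inl, Sum.elim_inr]
      rcases hs with ⟨h1, h2⟩ | ⟨s, h0, h1, h2, h3⟩ | ⟨s, h0, h1, h2, h3⟩ | ⟨h1, h2⟩ |
        ⟨s, u, v, h1, h2, h3, h4⟩
      · simp only at h2
        subst h2
        exact Or.inl ⟨h1, rfl, fun _ => rfl⟩
      · simp only at h0 h1 h2 h3
        subst h2
        refine Or.inr (Or.inl ⟨s, ⟨?_, ?_⟩, h1, encD_succ h3⟩)
        · rw [← hf]; exact h0
        · rw [Nat.mod_add_mod]
      · simp only at h0 h1 h2 h3
        subst h2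
        refine Or.inr (Or.inr (Or.inl ⟨s, ⟨?_, ?_⟩, h1, encD_succ h3⟩))
        · rw [← hf]; exact h0
        · rw [Nat.mod_add_mod]
      · simp only at h2
        subst h2
        exact Or.inr (Or.inr (Or.inr (Or.inl ⟨h1, rfl, fun _ => rfl⟩)))
      · simp only at h4
        subst h4
        have hu := hP.bU _ _ _ _ h1
        have hv := hJb _ _ _ h2 hu
        refine Or.inr (Or.inr (Or.inr (Or.inr ⟨s, (u.1, v.1), fun b => if b then v.2 else u.2,
          ?_, h1, h2, h3, rfl, fun _ => rfl⟩)))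
        intro b
        cases b
        · simpa using hu
        · simpa using hv

theorem CStep_NL2 [Finite C] [Finite S] (hP : NLSys P) (hJ : NL2 J) (hJb : JBdd J)
    (hp : 0 < p) (hf : ∀ m, f m = f (m % p)) :
    NL2 (fun w x y => ReflTransGen ((P w).CStep (J w) ((w.length + 2) ^ d) f) (x, 0) (y, 0)) := by
  intro c c'
  have h1 := IsNL.tc (ι := Empty) (κ := Option (Fin d)) (fun t t' => PC_isNL d p f hP hJ t t')
    (c, (⟨0, hp⟩ : Fin p)) (c', (⟨0, hp⟩ : Fin p))
  -- the arguments: positions and zeros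
  let σ : Empty ⊕ (Option (Fin d) ⊕ Option (Fin d)) → Bool ⊕ Unit := fun z => match z with
    | .inl e => e.elim
    | .inr (.inl none) => .inl false
    | .inr (.inr none) => .inl true
    | _ => .inr ()
  have h2 := (h1.reindex σ).and (IsNL.zero (.inr ()))
  refine (IsNL.ex h2).congr (fun w v hv => ?_)
  constructor
  · rintro ⟨a, ha, h3, h4⟩
    simp only [Sum.elim_inr] at h4
    have e1 := PC_sound (d := d) (p := p) (f := f) hP hp hf h3
      (by
        rintro (_ | i)
        · exact hv false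
        · exact ha ())
      (by
        have z1 : valD w.length d (fun i => Sum.elim v a (σ (Sum.inr (Sum.inl (some i))))) = 0 :=
          valD_zero (fun i => h4)
        simp only
        rw [z1]
        simp)
    have e2 := e1.2.2
    have z1 : valD w.length d (fun i => Sum.elim v a (σ (Sum.inr (Sum.inl (some i))))) = 0 :=
      valD_zero (fun i => h4)
    simp only [cfgC] at e2
    rw [z1] at e2
    exact e2
  · intro h
    refine ⟨fun _ => 0, fun _ => Nat.zero_le _, ?_, rfl⟩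
    have e1 := (PC_complete (d := d) (p := p) (f := f) (ve := fun i => i.elim) hP hJb hp hf h
      (hv false)).2
    have e3 : ∀ (q : C) (b : Bool), cfgG d p w.length hp ((q, v b), 0) =
        ((q, (⟨0, hp⟩ : Fin p)), fun o : Option (Fin d) => match o with
          | none => v b
          | some _ => 0) := by
      intro q b
      simp only [cfgG, Prod.mk.injEq, Nat.zero_mod, true_and]
      funext o
      cases o with
      | none => rfl
      | some i => exact encD_zero i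
    rw [e3, e3] at e1
    have e4 : (fun i : Empty => Sum.elim v (fun _ : Unit => 0) (σ (Sum.inl i))) =
        fun i : Empty => i.elim := by
      funext i; exact i.elim
    rw [e4]
    have e5 : (fun k : Option (Fin d) => Sum.elim v (fun _ : Unit => 0)
        (σ (Sum.inr (Sum.inl k)))) = fun o : Option (Fin d) => match o with
          | none => v false
          | some _ => 0 := by
      funext o; cases o <;> rfl
    have e6 : (fun k : Option (Fin d) => Sum.elim v (fun _ : Unit => 0)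
        (σ (Sum.inr (Sum.inr k)))) = fun o : Option (Fin d) => match o with
          | none => v true
          | some _ => 0 := by
      funext o; cases o <;> rfl
    rw [e5, e6]
    exact e1

end cstep

section sstep

variable (P) (J : List α → C × ℕ → C × ℕ → Prop)

/-- the steps along a spine -/
def PS (t t' : C × C) (w : List α) (v : Empty ⊕ (Bool ⊕ Bool) → ℕ) : Prop :=
  ((P w).N (t.1, v (.inr (.inl false))) (t'.1, v (.inr (.inr false))) ∧
    t'.2 = t.2 ∧ v (.inr (.inr true)) = v (.inr (.inl true))) ∨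
  (J w (t.1, v (.inr (.inl false))) (t'.1, v (.inr (.inr false))) ∧
    t'.2 = t.2 ∧ v (.inr (.inr true)) = v (.inr (.inl true))) ∨
  (∃ s, ∃ cc : C × C, ∃ a : Bool → ℕ, (∀ b, a b ≤ w.length + 1) ∧
    ((P w).U s (t.1, Sum.elim v a (.inl (.inr (.inl false)))) (cc.1, Sum.elim v a (.inr false)) ∧
      J w (cc.1, Sum.elim v a (.inr false)) (cc.2, Sum.elim v a (.inr true)) ∧
      (P w).O s (cc.2, Sum.elim v a (.inr true))
        (t'.1, Sum.elim v a (.inl (.inr (.inr false)))) ∧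
      t'.2 = t.2 ∧ Sum.elim v a (.inl (.inr (.inr true))) =
        Sum.elim v a (.inl (.inr (.inl true))))) ∨
  (∃ s, ∃ cy : C, ∃ a : Unit → ℕ, (∀ b, a b ≤ w.length + 1) ∧
    ((P w).U s (t.1, Sum.elim v a (.inl (.inr (.inl false))))
        (t'.1, Sum.elim v a (.inl (.inr (.inr false)))) ∧
      (P w).O s (t'.2, Sum.elim v a (.inl (.inr (.inr true)))) (cy, Sum.elim v a (.inr ())) ∧
      J w (cy, Sum.elim v a (.inr ())) (t.2, Sum.elim v a (.inl (.inr (.inl true))))))

variable {P J}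

theorem PS_isNL [Finite C] [Finite S] (hP : NLSys P) (hJ : NL2 J) (t t' : C × C) :
    IsNL (PS P J t t') := by
  refine IsNL.or ?_ (IsNL.or ?_ (IsNL.or ?_ ?_))
  · exact (hP.N.at _ _ _ _).and ((IsNL.const _).and (IsNL.eq _ _))
  · exact (hJ.at _ _ _ _).and ((IsNL.const _).and (IsNL.eq _ _))
  · refine IsNL.iExists (fun s => IsNL.iExists (fun cc => ?_))
    refine IsNL.ex (κ := Bool) (P := fun w (v : (Empty ⊕ (Bool ⊕ Bool)) ⊕ Bool → ℕ) =>
      (P w).U s (t.1, v (.inl (.inr (.inl false)))) (cc.1, v (.inr false)) ∧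
      J w (cc.1, v (.inr false)) (cc.2, v (.inr true)) ∧
      (P w).O s (cc.2, v (.inr true)) (t'.1, v (.inl (.inr (.inr false)))) ∧
      t'.2 = t.2 ∧ v (.inl (.inr (.inr true))) = v (.inl (.inr (.inl true)))) ?_
    exact ((hP.U s).at _ _ _ _).and ((hJ.at _ _ _ _).and (((hP.O s).at _ _ _ _).and
      ((IsNL.const _).and (IsNL.eq _ _))))
  · refine IsNL.iExists (fun s => IsNL.iExists (fun cy => ?_))
    refine IsNL.ex (κ := Unit) (P := fun w (v : (Empty ⊕ (Bool ⊕ Bool)) ⊕ Unit → ℕ) =>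
      (P w).U s (t.1, v (.inl (.inr (.inl false)))) (t'.1, v (.inl (.inr (.inr false)))) ∧
      (P w).O s (t'.2, v (.inl (.inr (.inr true)))) (cy, v (.inr ())) ∧
      J w (cy, v (.inr ())) (t.2, v (.inl (.inr (.inl true))))) ?_
    exact ((hP.U s).at _ _ _ _).and (((hP.O s).at _ _ _ _).and (hJ.at _ _ _ _))

/-- the pair of configurations -/
def cfgS (c : (C × C) × (Bool → ℕ)) : (C × ℕ) × (C × ℕ) :=
  ((c.1.1, c.2 false), (c.1.2, c.2 true))

/-- the configuration of the machine -/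
def cfgT (c : (C × ℕ) × (C × ℕ)) : (C × C) × (Bool → ℕ) :=
  ((c.1.1, c.2.1), fun b => if b then c.2.2 else c.1.2)

theorem PS_sound {w : List α} {ve : Empty → ℕ} {c c' : (C × C) × (Bool → ℕ)}
    (h : ReflTransGen (GStep (PS P J) w ve) c c') :
    ReflTransGen ((P w).SStep (J w)) (cfgS c) (cfgS c') := by
  induction h with
  | refl => exact .refl
  | @tail b c' _ hs ih =>
    obtain ⟨h1, h2⟩ := hs
    obtain ⟨⟨t, r⟩, u⟩ := b
    obtain ⟨⟨t', r'⟩, u'⟩ := c'
    simp only [PS, Sum.elim_inl, Sum.elim_inr] at h1 h2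
    refine ih.tail ?_
    rcases h2 with ⟨g1, g2, g3⟩ | ⟨g1, g2, g3⟩ | ⟨s, cc, a, g0, g1, g2, g3, g4, g5⟩ |
      ⟨s, cy, a, g0, g1, g2, g3⟩
    · exact Or.inl ⟨g1, by simp only [cfgS, g2, g3]⟩
    · exact Or.inr (Or.inl ⟨g1, by simp only [cfgS, g2, g3]⟩)
    · exact Or.inr (Or.inr (Or.inl ⟨s, _, _, g1, g2, g3, by simp only [cfgS, g4, g5]⟩))
    · exact Or.inr (Or.inr (Or.inr ⟨s, _, g1, g2, g3⟩))

theorem PS_complete (hP : NLSys P) (hJb : JBdd J) {w : List α} {ve : Empty → ℕ}
    {c c' : (C × ℕ) × (C × ℕ)} (h : ReflTransGen ((P w).SStep (J w)) c c')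
    (hb : c.1.2 ≤ w.length + 1) (hs2 : c.2.2 ≤ w.length + 1) :
    c'.1.2 ≤ w.length + 1 ∧ c'.2.2 ≤ w.length + 1 ∧
      ReflTransGen (GStep (PS P J) w ve) (cfgT c) (cfgT c') := by
  induction h with
  | refl => exact ⟨hb, hs2, .refl⟩
  | @tail b c' hr hs ih =>
    obtain ⟨i1, i2, i3⟩ := ih
    have hb' : c'.1.2 ≤ w.length + 1 ∧ c'.2.2 ≤ w.length + 1 := by
      rcases hs with ⟨h1, h2⟩ | ⟨h1, h2⟩ | ⟨s, _, _, _, _, h1, h2⟩ | ⟨s, _, h1, h2, _⟩
      · exact ⟨hP.bN _ _ _ h1, by rw [h2]; exact i2⟩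
      · exact ⟨hJb _ _ _ h1 i1, by rw [h2]; exact i2⟩
      · exact ⟨hP.bO _ _ _ _ h1, by rw [h2]; exact i2⟩
      · exact ⟨hP.bU _ _ _ _ h1, hP.bO' _ _ _ _ h2⟩
    refine ⟨hb'.1, hb'.2, i3.tail ⟨?_, ?_⟩⟩
    · intro k
      cases k
      · simpa [cfgT] using hb'.1
      · simpa [cfgT] using hb'.2
    · obtain ⟨⟨t, i⟩, ⟨r, j⟩⟩ := b
      obtain ⟨⟨t', i'⟩, ⟨r', j'⟩⟩ := c'
      simp only [PS, cfgT, Sum.elim_inl, Sum.elim_inr]
      rcases hs with ⟨h1, h2⟩ | ⟨h1, h2⟩ | ⟨s, u, v, h1, h2, h3, h4⟩ | ⟨s, y, h1, h2, h3⟩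
      · simp only [Prod.mk.injEq] at h2
        exact Or.inl ⟨h1, h2.1, h2.2⟩
      · simp only [Prod.mk.injEq] at h2
        exact Or.inr (Or.inl ⟨h1, h2.1, h2.2⟩)
      · simp only [Prod.mk.injEq] at h4
        have hu := hP.bU _ _ _ _ h1
        have hv := hJb _ _ _ h2 hu
        refine Or.inr (Or.inr (Or.inl ⟨s, (u.1, v.1), fun b => if b then v.2 else u.2,
          ?_, h1, h2, h3, h4.1, h4.2⟩))
        intro b
        cases b
        · simpa using hu
        · simpa using hv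
      · have hy := hP.bO _ _ _ _ h2
        exact Or.inr (Or.inr (Or.inr ⟨s, y.1, fun _ => y.2, fun _ => hy, h1, h2, h3⟩))

theorem SStep_NL2 [Finite C] [Finite S] (hP : NLSys P) (hJ : NL2 J) (hJb : JBdd J) :
    NL2 (fun w x y => ∃ z, ReflTransGen ((P w).SStep (J w)) (x, y) (z, z)) := by
  intro c c'
  have h1 := fun cz : C => IsNL.tc (ι := Empty) (κ := Bool)
    (fun t t' => PS_isNL (P := P) (J := J) hP hJ t t') (c, c') (cz, cz)
  let σ : Empty ⊕ (Bool ⊕ Bool) → Bool ⊕ Unit := fun z => match z with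
    | .inl e => e.elim
    | .inr (.inl b) => .inl b
    | .inr (.inr _) => .inr ()
  have h2 := fun cz => (h1 cz).reindex σ
  have h3 := fun cz => IsNL.ex (h2 cz)
  refine (IsNL.iExists h3).congr (fun w v hv => ?_)
  constructor
  · rintro ⟨cz, a, ha, h4⟩
    have e1 := PS_sound h4
    exact ⟨(cz, a ()), e1⟩
  · rintro ⟨z, h4⟩
    obtain ⟨e1, _, e3⟩ := PS_complete (ve := fun i : Empty => i.elim) hP hJb h4 (hv false)
      (hv true)
    refine ⟨z.1, fun _ => z.2, fun _ => e1, ?_⟩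
    have e4 : (fun i : Empty => Sum.elim v (fun _ : Unit => z.2) (σ (Sum.inl i))) =
        fun i : Empty => i.elim := by
      funext i; exact i.elim
    have e5 : (fun b : Bool => if b then v true else v false) = v := by
      funext b; cases b <;> rfl
    simp only [cfgT] at e3
    rw [e5] at e3
    rw [e4]
    have e6 : (fun b : Bool => if b then z.2 else z.2) = fun _ => z.2 := by
      funext b; cases b <;> rfl
    rw [e6] at e3
    exact e3

end sstep

/-- **The relations `Vk` are verified by multihead finite automata.** -/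
theorem Vk_NL2 [Finite C] [Finite S] {G : Type} [Finite G] (hP : NLSys P) (d : ℕ)
    (g : G → ℕ → Option S) (hg : ∀ i, ∃ p, 0 < p ∧ ∀ m, g i m = g i (m % p)) : ∀ k,
    NL2 (fun w => (P w).Vk ((w.length + 2) ^ d) g k) ∧
    JBdd (fun w => (P w).Vk ((w.length + 2) ^ d) g k) := by
  intro k
  have hJb : ∀ k, JBdd (fun w => (P w).Vk ((w.length + 2) ^ d) g k) := by
    intro k w x y h hx
    exact hP.steps_bdd ((P w).vk_sound k x y h []) hx
  refine ⟨?_, hJb k⟩
  induction k with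
  | zero =>
    intro c c'
    by_cases h : c = c'
    · refine (IsNL.eq false true).congr (fun w v _ => ?_)
      simp [TPS.Vk, h]
    · refine (IsNL.const False).congr (fun w v _ => ?_)
      simp [TPS.Vk, h]
  | succ k ih =>
    intro c c'
    refine IsNL.or ?_ ?_
    · refine IsNL.iExists (fun i => ?_)
      obtain ⟨p, hp, hf⟩ := hg i
      exact CStep_NL2 d p (g i) hP ih (hJb k) hp hf c c'
    · exact SStep_NL2 hP ih (hJb k) c c'

end Pool.Agent.V8H47.NLK
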